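import Mathlib

/-!
# Finite differences of functions of class `C^k`
-/

set_option autoImplicit false
set_option linter.all false

open scoped ContDiff

namespace Pool.Agent.Zk94.MB

variable {E F : Type} [NormedAddCommGroup E] [NormedSpace ℝ E] [NormedAddCommGroup F]
  [NormedSpace ℝ F]

theorem fwd_add (h : E) (u : E → F) (k : ℕ) (hu : ContDiff ℝ k u) (x : E) :
    iteratedFDeriv ℝ k (fwdDiff h u) x =
      iteratedFDeriv ℝ k u (x + h) - iteratedFDeriv ℝ k u x := by
  have h1 : fwdDiff h u = (fun x => u (x + h)) - u := by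
    funext x; rfl
  rw [h1]
  have h2 : ContDiff ℝ k (fun x => u (x + h)) := hu.comp (contDiff_id.add contDiff_const)
  rw [iteratedFDeriv_sub_apply h2.contDiffAt hu.contDiffAt, iteratedFDeriv_comp_add_right]

theorem iterate_bound (h : E) (k : ℕ) : ∀ (u : E → F) (B : ℝ), ContDiff ℝ k u →
    (∀ x, ‖iteratedFDeriv ℝ k u x‖ ≤ B) → ∀ x, ‖(fwdDiff h)^[k] u x‖ ≤ ‖h‖ ^ k * B := by
  induction k with
  | zero =>
    intro u B hu hB x
    rw [Function.iterate_zero, id, pow_zero, one_mul, ← norm_iteratedFDeriv_zero (𝕜 := ℝ)]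
    exact hB x
  | succ k ih =>
    intro u B hu hB x
    rw [Function.iterate_succ_apply, pow_succ, mul_assoc]
    have hu' : ContDiff ℝ k u := hu.of_le (by exact_mod_cast Nat.le_succ k)
    refine ih (fwdDiff h u) (‖h‖ * B) ?_ ?_ x
    · have h1 : fwdDiff h u = (fun x => u (x + h)) - u := by
        funext x; rfl
      rw [h1]
      exact (hu'.comp (contDiff_id.add contDiff_const)).sub hu'
    · intro x
      rw [fwd_add h u k hu' x]
      have hd : Differentiable ℝ (iteratedFDeriv ℝ k u) :=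
        hu.differentiable_iteratedFDeriv (by exact_mod_cast Nat.lt_succ_self k)
      have h2 := Convex.norm_image_sub_le_of_norm_fderiv_le (𝕜 := ℝ) (s := Set.univ)
        (f := iteratedFDeriv ℝ k u) (x := x) (y := x + h) (C := B)
        (fun y _ => hd y) (fun y _ => by rw [norm_fderiv_iteratedFDeriv]; exact hB y)
        convex_univ trivial trivial
      rw [add_sub_cancel_left, mul_comm] at h2
      exact h2

theorem iterate_bound_two (h : E) (m : ℕ) : ∀ (v : E → F) (K : ℝ), (∀ x, ‖v x‖ ≤ K) →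
    ∀ x, ‖(fwdDiff h)^[m] v x‖ ≤ 2 ^ m * K := by
  induction m with
  | zero =>
    intro v K hv x
    rw [Function.iterate_zero, id, pow_zero, one_mul]
    exact hv x
  | succ m ih =>
    intro v K hv x
    rw [Function.iterate_succ_apply, pow_succ, mul_assoc]
    refine ih (fwdDiff h v) (2 * K) (fun x => ?_) x
    have h1 : fwdDiff h v x = v (x + h) - v x := rfl
    rw [h1]
    refine (norm_sub_le _ _).trans ?_
    have h2 := hv (x + h)
    have h3 := hv x
    linarith

/-- the finite difference of order `M` -/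
theorem fin_diff (h : E) (M k : ℕ) (hk : k ≤ M) (u : E → F) (B : ℝ) (hu : ContDiff ℝ k u)
    (hB : ∀ x, ‖iteratedFDeriv ℝ k u x‖ ≤ B) (x : E) :
    ‖∑ j ∈ Finset.range (M + 1), ((-1 : ℝ) ^ j * (M.choose j : ℝ)) • u (x - (j : ℝ) • h)‖ ≤
      2 ^ (M - k) * (‖h‖ ^ k * B) := by
  have h1 : ∑ j ∈ Finset.range (M + 1), ((-1 : ℝ) ^ j * (M.choose j : ℝ)) • u (x - (j : ℝ) • h) =
      (-1 : ℝ) ^ M • (fwdDiff (-h))^[M] u x := by
    rw [fwdDiff_iter_eq_sum_shift, Finset.smul_sum]
    refine Finset.sum_congr rfl fun j hj => ?_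
    have hj' : j ≤ M := Nat.lt_succ_iff.1 (Finset.mem_range.1 hj)
    have e1 : x + j • -h = x - (j : ℝ) • h := by
      rw [smul_neg, ← sub_eq_add_neg, Nat.cast_smul_eq_nsmul]
    rw [e1, ← Int.cast_smul_eq_zsmul ℝ, smul_smul]
    congr 1
    push_cast
    rw [← mul_assoc]
    congr 1
    have e2 : (-1 : ℝ) ^ M * (-1) ^ (M - j) = (-1) ^ j * ((-1) ^ (M - j)) ^ 2 := by
      conv_lhs => rw [← Nat.sub_add_cancel hj', pow_add]
      rw [Nat.add_sub_cancel]
      ring
    rw [e2, ← pow_mul, mul_comm (M - j) 2, pow_mul]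
    norm_num
  rw [h1, norm_smul, norm_pow, norm_neg, norm_one, one_pow, one_mul]
  have h2 : (fwdDiff (-h))^[M] u = (fwdDiff (-h))^[M - k] ((fwdDiff (-h))^[k] u) := by
    rw [← Function.iterate_add_apply, Nat.sub_add_cancel hk]
  rw [h2]
  refine iterate_bound_two (-h) (M - k) _ _ (fun y => ?_) x
  have h3 := iterate_bound (-h) k u B hu hB y
  rwa [norm_neg] at h3

end Pool.Agent.Zk94.MB
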