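import Pool.Agent.Zk27.MB.Cut
import Pool.Agent.H708R2.EulerModes.Main
import Pool.Agent.Zk94.MB.FD

/-!
# Blocks (module O1)
-/

open MeasureTheory Set
open scoped ContDiff Topology

set_option linter.all false

namespace Pool.Agent.Zk94.MB

open Pool.Agent.H708R2.EulerSign Pool.Agent.H708R2.EulerModes
open Pool.Agent.R739.ET (wr wr_add wr_mem wr_exists wr_eq wr_near near_mem)
open Pool.Agent.Zk27.MB

/-! ### wrapping -/

section wrap

variable {E : Type} [NormedAddCommGroup E] [NormedSpace ℝ E]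

/-- the projection to the plane -/
noncomputable def PL : V →L[ℝ] ℝ × ℝ :=
  (ContinuousLinearMap.proj (R := ℝ) (φ := fun _ : Fin 3 => ℝ) 0).prod
    (ContinuousLinearMap.proj (R := ℝ) (φ := fun _ : Fin 3 => ℝ) 1)

lemma PL_apply (x : V) : PL x = (x 0, x 1) := rfl

lemma PL_norm : ‖PL‖ ≤ 1 := by
  refine ContinuousLinearMap.opNorm_le_bound _ zero_le_one fun x => ?_
  rw [one_mul, PL_apply, Prod.norm_def]
  exact max_le (norm_le_pi_norm x 0) (norm_le_pi_norm x 1)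

/-- functions of the plane which vanish outside of the open unit square -/
def Sq {E : Type} [Zero E] (H : ℝ × ℝ → E) : Prop := ∀ z, 1 ≤ |z.1| ∨ 1 ≤ |z.2| → H z = 0

lemma pr_per : Periodic3 pr := by
  intro i x
  unfold pr
  fin_cases i
  · have : (x + Pi.single (0 : Fin 3) (2 * Real.pi) : V) 0 = x 0 + 2 * Real.pi := by simp
    simp only [Fin.zero_eta, this, wr_add]
    simp
  · have : (x + Pi.single (1 : Fin 3) (2 * Real.pi) : V) 1 = x 1 + 2 * Real.pi := by simp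
    simp only [Fin.mk_one, this, wr_add]
    simp
  · simp

lemma comp_per {F : Type*} (H : ℝ × ℝ → F) : Periodic3 (fun x => H (pr x)) := by
  intro i x
  simp only
  rw [pr_per i x]

/-- the shift near `x₀` -/
noncomputable def sh (x₀ : V) : ℝ × ℝ := (wr (x₀ 0) - x₀ 0, wr (x₀ 1) - x₀ 1)

lemma near (H : ℝ × ℝ → E) (hH : Sq H) (x₀ : V) :
    (fun x => H (pr x)) =ᶠ[𝓝 x₀] fun x => H (PL x + sh x₀) := by
  filter_upwards [near_mem x₀] with x hx
  have e : PL x + sh x₀ = (x 0 + (wr (x₀ 0) - x₀ 0), x 1 + (wr (x₀ 1) - x₀ 1)) := rfl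
  rw [e]
  rcases wr_near (x₀ 0) (x 0) (hx 0) with h0 | ⟨h0, h0'⟩
  · rcases wr_near (x₀ 1) (x 1) (hx 1) with h1 | ⟨h1, h1'⟩
    · unfold pr
      rw [h0, h1]
    · rw [hH (pr x) (Or.inr h1), hH _ (Or.inr h1')]
  · rw [hH (pr x) (Or.inl h0), hH _ (Or.inl h0')]

lemma smooth_wrap (H : ℝ × ℝ → E) (hH : Sq H) (hs : ContDiff ℝ ∞ H) :
    ContDiff ℝ ∞ (fun x => H (pr x)) := by
  rw [contDiff_iff_contDiffAt]
  intro x₀
  refine ContDiffAt.congr_of_eventuallyEq ?_ (near H hH x₀)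
  exact (hs.comp (PL.contDiff.add contDiff_const)).contDiffAt

lemma iter_comp {A : Type} [NormedAddCommGroup A] [NormedSpace ℝ A] (g : ℝ × ℝ → E)
    (hg : ContDiff ℝ ∞ g) (L : A →L[ℝ] ℝ × ℝ) (d : ℝ × ℝ) (k : ℕ) (x : A) :
    ‖iteratedFDeriv ℝ k (fun x => g (L x + d)) x‖ ≤
      ‖iteratedFDeriv ℝ k g (L x + d)‖ * ‖L‖ ^ k := by
  have h1 : (fun x => g (L x + d)) = (fun z => g (z + d)) ∘ L := rfl
  have h2 : ContDiff ℝ k (fun z => g (z + d)) :=
    (contDiff_infty.1 hg k).comp (contDiff_id.add contDiff_const)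
  rw [h1, L.iteratedFDeriv_comp_right h2 x le_rfl]
  refine (ContinuousMultilinearMap.norm_compContinuousLinearMap_le _ _).trans ?_
  rw [Finset.prod_const, Finset.card_univ, Fintype.card_fin, iteratedFDeriv_comp_add_right]

lemma iter_wrap (H : ℝ × ℝ → E) (hH : Sq H) (hs : ContDiff ℝ ∞ H) (k : ℕ) {K : ℝ}
    (hK : ∀ z, ‖iteratedFDeriv ℝ k H z‖ ≤ K) (x : V) :
    ‖iteratedFDeriv ℝ k (fun x => H (pr x)) x‖ ≤ K := by
  have h1 := ((near H hH x).iteratedFDeriv ℝ k).eq_of_nhds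
  rw [h1]
  refine (iter_comp H hs PL (sh x) k x).trans ?_
  have h2 : ‖PL‖ ^ k ≤ 1 := pow_le_one₀ (norm_nonneg _) PL_norm
  have h3 := hK (PL x + sh x)
  calc _ ≤ ‖iteratedFDeriv ℝ k H (PL x + sh x)‖ * 1 :=
        mul_le_mul_of_nonneg_left h2 (norm_nonneg _)
    _ ≤ K := by rw [mul_one]; exact h3

lemma fderiv_wrap (H : ℝ × ℝ → E) (hH : Sq H) (hs : ContDiff ℝ ∞ H) (x : V) (v : V) :
    fderiv ℝ (fun x => H (pr x)) x v = fderiv ℝ H (PL x + sh x) (PL v) := by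
  rw [(near H hH x).fderiv_eq]
  have h1 : HasFDerivAt H (fderiv ℝ H (PL x + sh x)) (PL x + sh x) :=
    (hs.differentiable (by simp) _).hasFDerivAt
  have h2 : HasFDerivAt (fun y => PL y + sh x) PL x := PL.hasFDerivAt.add_const _
  have h3 : fderiv ℝ (fun y => H (PL y + sh x)) x = (fderiv ℝ H (PL x + sh x)).comp PL :=
    (h1.comp x h2).fderiv
  rw [h3]
  rfl

end wrap

/-! ### the profile -/

section prof

variable {f : ℝ × ℝ → V}

/-- the affine map of the copy `j` -/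
lemma cp_eq (M N : ℕ) (f : ℝ × ℝ → V) (z : ℝ × ℝ) : cp M N f z =
    ∑ j ∈ Finset.range (M + 1), ((-1 : ℝ) ^ j * (M.choose j : ℝ)) •
      f ((((2 : ℝ) ^ N) • ContinuousLinearMap.id ℝ (ℝ × ℝ)) z + (8 * (j : ℝ), 0)) := by
  unfold cp
  refine Finset.sum_congr rfl fun j _ => ?_
  congr 2
  ext <;> simp

lemma cp_smooth (M N : ℕ) (hf : ContDiff ℝ ∞ f) : ContDiff ℝ ∞ (cp M N f) := by
  have h1 : cp M N f = fun z => ∑ j ∈ Finset.range (M + 1),
      ((-1 : ℝ) ^ j * (M.choose j : ℝ)) •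
      f ((((2 : ℝ) ^ N) • ContinuousLinearMap.id ℝ (ℝ × ℝ)) z + (8 * (j : ℝ), 0)) :=
    funext fun z => cp_eq M N f z
  rw [h1]
  refine ContDiff.sum fun j _ => ?_
  exact (hf.comp ((ContinuousLinearMap.contDiff _).add contDiff_const)).const_smul _

lemma sum_coeff (M : ℕ) :
    ∑ j ∈ Finset.range (M + 1), |(-1 : ℝ) ^ j * (M.choose j : ℝ)| = 2 ^ M := by
  have h1 : ∀ j ∈ Finset.range (M + 1), |(-1 : ℝ) ^ j * (M.choose j : ℝ)| = (M.choose j : ℝ) := by
    intro j _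
    rw [abs_mul, abs_pow, abs_neg, abs_one, one_pow, one_mul, Nat.abs_cast]
  rw [Finset.sum_congr rfl h1, ← Nat.cast_sum, Nat.sum_range_choose]
  push_cast
  rfl

lemma cp_iter (M N : ℕ) (hf : ContDiff ℝ ∞ f) (k : ℕ) {A : ℝ}
    (hA : ∀ z, ‖iteratedFDeriv ℝ k f z‖ ≤ A) (z : ℝ × ℝ) :
    ‖iteratedFDeriv ℝ k (cp M N f) z‖ ≤ 2 ^ M * A * 2 ^ (N * k) := by
  let L : (ℝ × ℝ) →L[ℝ] ℝ × ℝ := ((2 : ℝ) ^ N) • ContinuousLinearMap.id ℝ (ℝ × ℝ)
  have hL : ‖L‖ ≤ 2 ^ N := by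
    refine ContinuousLinearMap.opNorm_le_bound _ (by positivity) fun x => ?_
    change ‖(2 : ℝ) ^ N • x‖ ≤ _
    rw [norm_smul, Real.norm_of_nonneg (by positivity)]
  have hA0 : 0 ≤ A := (norm_nonneg _).trans (hA 0)
  let g : ℕ → ℝ × ℝ → V := fun j z => f (L z + (8 * (j : ℝ), 0))
  have hg : ∀ j, ContDiff ℝ k (g j) := fun j =>
    (contDiff_infty.1 hf k).comp ((ContinuousLinearMap.contDiff _).add contDiff_const)
  let G : ℕ → ℝ × ℝ → V := fun j => ((-1 : ℝ) ^ j * (M.choose j : ℝ)) • g j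
  have hG : ∀ j ∈ Finset.range (M + 1), ContDiff ℝ k (G j) := fun j _ =>
    ContDiff.const_smul ((-1 : ℝ) ^ j * (M.choose j : ℝ)) (hg j)
  have h1 : cp M N f = fun z => ∑ j ∈ Finset.range (M + 1), G j z :=
    funext fun z => cp_eq M N f z
  rw [h1, iteratedFDeriv_sum hG, Finset.sum_apply]
  refine (norm_sum_le _ _).trans ?_
  have h2 : ∀ j ∈ Finset.range (M + 1), ‖iteratedFDeriv ℝ k (G j) z‖ ≤
        |(-1 : ℝ) ^ j * (M.choose j : ℝ)| * (A * 2 ^ (N * k)) := by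
    intro j _
    rw [iteratedFDeriv_const_smul_apply (hg j).contDiffAt, norm_smul, Real.norm_eq_abs]
    refine mul_le_mul_of_nonneg_left ?_ (abs_nonneg _)
    refine (iter_comp f hf L _ k z).trans ?_
    rw [pow_mul]
    exact mul_le_mul (hA _) (pow_le_pow_left₀ (norm_nonneg _) hL k) (by positivity) hA0
  refine (Finset.sum_le_sum h2).trans ?_
  rw [← Finset.sum_mul, sum_coeff, mul_assoc]

lemma lam (M n₀ : ℕ) (h : 8 * M + 2 < 2 ^ n₀) (n : ℕ) : (8 * M + 2 : ℝ) < 2 ^ (n₀ + n) := by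
  have h1 : 8 * M + 2 < 2 ^ (n₀ + n) := h.trans_le (Nat.pow_le_pow_right two_pos (Nat.le_add_right _ _))
  exact_mod_cast h1

/-- the support of a copy -/
lemma supp_copy (hs : ∀ z, f z ≠ 0 → |z.1| ≤ 2 ∧ |z.2| ≤ 2) {l : ℝ} (hl : 0 < l) {c : ℝ}
    {K : ℝ} (hc : |c| ≤ K) (z : ℝ × ℝ) (hz : f (l * z.1 + c, l * z.2) ≠ 0) :
    |z.1| ≤ (K + 2) / l ∧ |z.2| ≤ 2 / l := by
  obtain ⟨h1, h2⟩ := hs _ hz
  simp only at h1 h2
  constructor
  · rw [le_div_iff₀ hl]
    have h3 : |l * z.1| ≤ K + 2 := by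
      have h4 : l * z.1 = (l * z.1 + c) - c := by ring
      rw [h4]
      refine (abs_sub _ _).trans ?_
      linarith
    rwa [abs_mul, abs_of_pos hl, mul_comm] at h3
  · rw [le_div_iff₀ hl]
    rwa [abs_mul, abs_of_pos hl, mul_comm] at h2

lemma supp_cp (M N : ℕ) (hs : ∀ z, f z ≠ 0 → |z.1| ≤ 2 ∧ |z.2| ≤ 2) (z : ℝ × ℝ)
    (hz : cp M N f z ≠ 0) : |z.1| ≤ (8 * M + 2) / 2 ^ N ∧ |z.2| ≤ 2 / 2 ^ N := by
  unfold cp at hz
  obtain ⟨j, hj, hj2⟩ := Finset.exists_ne_zero_of_sum_ne_zero hz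
  have hj' : (j : ℝ) ≤ M := by exact_mod_cast Nat.lt_succ_iff.1 (Finset.mem_range.1 hj)
  refine supp_copy hs (by positivity) (c := 8 * (j : ℝ)) ?_ z fun h0 => hj2 (by rw [h0, smul_zero])
  rw [abs_of_nonneg (by positivity)]
  linarith

end prof

/-! ### integrals over a period cell -/

lemma wr_abs_cube {s : ℝ} (h1 : -Real.pi ≤ s) (h2 : s ≤ Real.pi) : |wr s| = |s| := by
  rcases eq_or_lt_of_le h1 with h | h
  · have e : wr s = Real.pi := wr_eq ⟨by linarith [Real.pi_pos], le_rfl⟩ ⟨-1, by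
      rw [← h]; push_cast; ring⟩
    rw [e, ← h, abs_neg]
  · have e : wr s = s := wr_eq ⟨h, h2⟩ ⟨0, by simp⟩
    rw [e]

lemma int_bound {G : V → ℝ} (hp : Periodic3 G) {K a b : ℝ} (ha : 0 ≤ a) (hb : 0 ≤ b)
    (hK : ∀ x, |G x| ≤ K) (hv : ∀ x, G x ≠ 0 → |wr (x 0)| ≤ a ∧ |wr (x 1)| ≤ b) :
    |∫ x in Dom, G x| ≤ K * (8 * Real.pi * a * b) := by
  rw [← integral_cube hp]
  let S : Set V := Icc ![-a, -b, -Real.pi] ![a, b, Real.pi]
  have hcm : MeasurableSet cube := measurableSet_Icc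
  have h1 : ∫ x in cube, G x = ∫ x in (cube ∩ S), G x := by
    refine setIntegral_eq_of_subset_of_forall_sdiff_eq_zero hcm inter_subset_left ?_
    rintro x ⟨hx1, hx2⟩
    by_contra hne
    obtain ⟨h2, h3⟩ := hv x hne
    have hx : ∀ i, -Real.pi ≤ x i ∧ x i ≤ Real.pi := fun i => ⟨hx1.1 i, hx1.2 i⟩
    rw [wr_abs_cube (hx 0).1 (hx 0).2, abs_le] at h2
    rw [wr_abs_cube (hx 1).1 (hx 1).2, abs_le] at h3
    apply hx2
    refine ⟨hx1, ?_, ?_⟩
    · intro i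
      fin_cases i
      · exact h2.1
      · exact h3.1
      · exact (hx 2).1
    · intro i
      fin_cases i
      · exact h2.2
      · exact h3.2
      · exact (hx 2).2
  have hK0 : 0 ≤ K := (abs_nonneg _).trans (hK 0)
  have hle : (![-a, -b, -Real.pi] : V) ≤ ![a, b, Real.pi] := by
    intro i
    fin_cases i
    · simpa using by linarith
    · simpa using by linarith
    · simpa using by linarith [Real.pi_pos]
  have hfin : volume S < ⊤ := isCompact_Icc.measure_lt_top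
  have hS : volume.real S = 8 * Real.pi * a * b := by
    rw [Measure.real, Real.volume_Icc_pi_toReal hle, Fin.prod_univ_three]
    simp
    ring
  rw [h1, ← Real.norm_eq_abs]
  refine (norm_setIntegral_le_of_norm_le_const (lt_of_le_of_lt (measure_mono inter_subset_right)
    hfin) (fun x _ => by rw [Real.norm_eq_abs]; exact hK x)).trans ?_
  refine mul_le_mul_of_nonneg_left ?_ hK0
  rw [← hS]
  exact measureReal_mono inter_subset_right hfin.ne

/-! ### divergence -/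

lemma cp_div {f : ℝ × ℝ → V} (hf : ContDiff ℝ ∞ f)
    (hd : ∀ z, fderiv ℝ f z (1, 0) 0 + fderiv ℝ f z (0, 1) 1 = 0) (M N : ℕ) (z : ℝ × ℝ) :
    fderiv ℝ (cp M N f) z (1, 0) 0 + fderiv ℝ (cp M N f) z (0, 1) 1 = 0 := by
  let L : (ℝ × ℝ) →L[ℝ] ℝ × ℝ := ((2 : ℝ) ^ N) • ContinuousLinearMap.id ℝ (ℝ × ℝ)
  have h1 : HasFDerivAt (cp M N f) (∑ j ∈ Finset.range (M + 1),
      ((-1 : ℝ) ^ j * (M.choose j : ℝ)) • (fderiv ℝ f (L z + (8 * (j : ℝ), 0))).comp L) z := by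
    have h0 : cp M N f = fun z => ∑ j ∈ Finset.range (M + 1),
        ((-1 : ℝ) ^ j * (M.choose j : ℝ)) • f (L z + (8 * (j : ℝ), 0)) :=
      funext fun z => cp_eq M N f z
    rw [h0]
    refine HasFDerivAt.fun_sum fun j _ => ?_
    have h2 : HasFDerivAt f (fderiv ℝ f (L z + (8 * (j : ℝ), 0))) (L z + (8 * (j : ℝ), 0)) :=
      (hf.differentiable (by simp) _).hasFDerivAt
    have h3 : HasFDerivAt (fun y => L y + (8 * (j : ℝ), (0 : ℝ))) L z := L.hasFDerivAt.add_const _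
    exact (h2.comp z h3).const_smul ((-1 : ℝ) ^ j * (M.choose j : ℝ))
  have hL : ∀ v, L v = (2 : ℝ) ^ N • v := fun v => rfl
  rw [h1.fderiv]
  simp only [ContinuousLinearMap.sum_apply, ContinuousLinearMap.smul_apply,
    ContinuousLinearMap.comp_apply, hL, map_smul, Finset.sum_apply, Pi.smul_apply, smul_eq_mul]
  rw [← Finset.sum_add_distrib]
  refine Finset.sum_eq_zero fun j _ => ?_
  have h4 := hd ((2 : ℝ) ^ N • z + (8 * (j : ℝ), 0))
  linear_combination ((-1 : ℝ) ^ j * (M.choose j : ℝ)) * 2 ^ N * h4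

/-! ### the copies -/

/-- the copy `0` -/
noncomputable def g0 (N : ℕ) (f : ℝ × ℝ → V) (z : ℝ × ℝ) : V := f (2 ^ N * z.1, 2 ^ N * z.2)

lemma g0_sq {N : ℕ} (hN : (2 : ℝ) < 2 ^ N) {f : ℝ × ℝ → V}
    (hs : ∀ z, f z ≠ 0 → |z.1| ≤ 2 ∧ |z.2| ≤ 2) : Sq (g0 N f) := by
  intro z hz
  by_contra hne
  obtain ⟨h1, h2⟩ := hs _ hne
  simp only at h1 h2
  rw [abs_mul, abs_of_pos (by positivity : (0 : ℝ) < 2 ^ N)] at h1 h2
  rcases hz with h | h
  · nlinarith
  · nlinarith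

lemma cp_sq {M N : ℕ} (hN : (8 * M + 2 : ℝ) < 2 ^ N) {f : ℝ × ℝ → V}
    (hs : ∀ z, f z ≠ 0 → |z.1| ≤ 2 ∧ |z.2| ≤ 2) : Sq (cp M N f) := by
  intro z hz
  by_contra hne
  obtain ⟨h1, h2⟩ := supp_cp M N hs z hne
  have hp : (0 : ℝ) < 2 ^ N := by positivity
  have hM : (0 : ℝ) ≤ M := Nat.cast_nonneg M
  rw [le_div_iff₀ hp] at h1 h2
  rcases hz with h | h
  · nlinarith
  · nlinarith

lemma g0_smooth (N : ℕ) {f : ℝ × ℝ → V} (hf : ContDiff ℝ ∞ f) : ContDiff ℝ ∞ (g0 N f) :=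
  hf.comp ((contDiff_const.mul contDiff_fst).prodMk (contDiff_const.mul contDiff_snd))

lemma copy_eq {M N : ℕ} (hN : (8 * M + 2 : ℝ) < 2 ^ N) {f : ℝ × ℝ → V}
    (hs : ∀ z, f z ≠ 0 → |z.1| ≤ 2 ∧ |z.2| ≤ 2) (j : ℕ) (hj : j ≤ M) (x : V) :
    f (2 ^ N * (pr x).1 + 8 * j, 2 ^ N * (pr x).2) =
      g0 N f (pr (x + (j : ℝ) • (Pi.single 0 (8 / 2 ^ N) : V))) := by
  have hp : (0 : ℝ) < 2 ^ N := by positivity
  have hj' : (j : ℝ) ≤ M := by exact_mod_cast hj
  have hj0 : (0 : ℝ) ≤ j := Nat.cast_nonneg j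
  have hpi := Real.pi_gt_three
  obtain ⟨t, ht⟩ : ∃ t : ℝ, t = (j : ℝ) * (8 / 2 ^ N) := ⟨_, rfl⟩
  have htN : 2 ^ N * t = 8 * j := by rw [ht]; field_simp
  have ht0 : 0 ≤ t := by rw [ht]; positivity
  have ht1 : t < 1 := by
    by_contra hcon
    push Not at hcon
    nlinarith
  have e0 : (x + (j : ℝ) • (Pi.single 0 (8 / 2 ^ N) : V)) 0 = x 0 + t := by
    rw [ht]; simp
  have e1 : (x + (j : ℝ) • (Pi.single 0 (8 / 2 ^ N) : V)) 1 = x 1 := by simp
  have hw := wr_mem (x 0)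
  obtain ⟨m, hm⟩ := wr_exists (x 0)
  have hN2 : (2 : ℝ) < 2 ^ N := by
    have : (0 : ℝ) ≤ M := Nat.cast_nonneg M
    linarith
  unfold g0 pr
  simp only
  rw [e0, e1]
  by_cases hc : wr (x 0) + t ≤ Real.pi
  · have h1 : wr (x 0 + t) = wr (x 0) + t :=
      wr_eq ⟨by linarith [hw.1], hc⟩ ⟨m, by linarith⟩
    rw [h1, mul_add, htN]
  · push Not at hc
    have h1 : wr (x 0 + t) = wr (x 0) + t - 2 * Real.pi :=
      wr_eq ⟨by linarith, by linarith [hw.2]⟩ ⟨m + 1, by push_cast; linarith⟩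
    rw [h1]
    have h2 : f (2 ^ N * wr (x 0) + 8 * j, 2 ^ N * wr (x 1)) = 0 := by
      by_contra hne
      have h3 := (hs _ hne).1
      simp only at h3
      rw [← htN, ← mul_add, abs_mul, abs_of_pos hp] at h3
      have h4 : Real.pi < |wr (x 0) + t| := hc.trans_le (le_abs_self _)
      nlinarith
    have h5 : f (2 ^ N * (wr (x 0) + t - 2 * Real.pi), 2 ^ N * wr (x 1)) = 0 := by
      by_contra hne
      have h3 := (hs _ hne).1
      simp only at h3
      rw [abs_mul, abs_of_pos hp] at h3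
      have h4 : 2 ≤ |wr (x 0) + t - 2 * Real.pi| := by
        rw [le_abs]
        right
        linarith [hw.2]
      nlinarith
    rw [h2, h5]

lemma blk_eq {M N : ℕ} (hN : (8 * M + 2 : ℝ) < 2 ^ N) {f : ℝ × ℝ → V}
    (hs : ∀ z, f z ≠ 0 → |z.1| ≤ 2 ∧ |z.2| ≤ 2) (x : V) :
    blk M N f x = ∑ j ∈ Finset.range (M + 1), ((-1 : ℝ) ^ j * (M.choose j : ℝ)) •
      g0 N f (pr (x + (j : ℝ) • (Pi.single 0 (8 / 2 ^ N) : V))) := by
  unfold blk cp
  refine Finset.sum_congr rfl fun j hj => ?_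
  rw [copy_eq hN hs j (Nat.lt_succ_iff.1 (Finset.mem_range.1 hj)) x]

lemma dot_le (a b : V) : |∑ i, a i * b i| ≤ 3 * (‖a‖ * ‖b‖) := by
  refine (Finset.abs_sum_le_sum_abs _ _).trans ?_
  have h1 : ∀ i ∈ (Finset.univ : Finset (Fin 3)), |a i * b i| ≤ ‖a‖ * ‖b‖ := by
    intro i _
    rw [abs_mul]
    exact mul_le_mul (norm_le_pi_norm a i) (norm_le_pi_norm b i) (abs_nonneg _) (norm_nonneg _)
  refine (Finset.sum_le_sum h1).trans ?_
  rw [Finset.sum_const, Finset.card_univ, Fintype.card_fin, nsmul_eq_mul]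
  push_cast
  exact le_rfl

lemma sq3_le (y : V) : sq3 y ≤ 3 * ‖y‖ ^ 2 := by
  have h1 := dot_le y y
  have h2 : sq3 y = ∑ i, y i * y i := Finset.sum_congr rfl fun i _ => by ring
  rw [h2]
  refine (le_abs_self _).trans (h1.trans_eq ?_)
  ring

theorem mom_bound {M N : ℕ} (hN : (8 * M + 2 : ℝ) < 2 ^ N) {f : ℝ × ℝ → V}
    (hf : ContDiff ℝ ∞ f) (hs : ∀ z, f z ≠ 0 → |z.1| ≤ 2 ∧ |z.2| ≤ 2) {A : ℝ}
    (hA : ∀ z, ‖f z‖ ≤ A) (k : ℕ) (hk : k ≤ M) (u : V → V) (B : ℝ) (hu : ContDiff ℝ k u)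
    (hup : Periodic3 u) (hB : ∀ x, ‖iteratedFDeriv ℝ k u x‖ ≤ B) :
    |ip u (blk M N f)| ≤ 96 * Real.pi * A * 2 ^ M * 8 ^ M * B *
      ((1 / 4) ^ N * (1 / 2) ^ (N * k)) := by
  have hp : (0 : ℝ) < 2 ^ N := by positivity
  have hN2 : (2 : ℝ) < 2 ^ N := by
    have : (0 : ℝ) ≤ M := Nat.cast_nonneg M
    linarith
  have hA0 : 0 ≤ A := (norm_nonneg _).trans (hA 0)
  have hB0 : 0 ≤ B := (norm_nonneg _).trans (hB 0)
  obtain ⟨h, hh⟩ : ∃ h : V, h = Pi.single 0 (8 / 2 ^ N) := ⟨_, rfl⟩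
  have hhn : ‖h‖ ≤ 8 / 2 ^ N := by
    rw [hh]
    refine (pi_norm_le_iff_of_nonneg (by positivity)).2 fun i => ?_
    by_cases hi : i = 0
    · subst hi
      rw [Pi.single_eq_same, Real.norm_of_nonneg (by positivity)]
    · rw [Pi.single_eq_of_ne hi, norm_zero]
      positivity
  have huc : Continuous u := hu.continuous
  let g : V → V := fun x => g0 N f (pr x)
  have hgc : Continuous g := (smooth_wrap _ (g0_sq hN2 hs) (g0_smooth N hf)).continuous
  have hgp : Periodic3 g := comp_per _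
  have hint : ∀ c d : V, IntegrableOn (fun x => ∑ i, u (x + c) i * g (x + d) i) Dom := by
    intro c d
    refine Periodic3.integrableOn ?_ ?_
    · intro i x
      simp only
      have e1 : x + Pi.single i (2 * Real.pi) + c = (x + c) + Pi.single i (2 * Real.pi) := by abel
      have e2 : x + Pi.single i (2 * Real.pi) + d = (x + d) + Pi.single i (2 * Real.pi) := by abel
      rw [e1, e2, hup i, hgp i]
    · refine continuous_finset_sum _ fun i _ => ?_
      exact ((continuous_apply i).comp (huc.comp (continuous_id.add continuous_const))).mul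
        ((continuous_apply i).comp (hgc.comp (continuous_id.add continuous_const)))
  have hint' : ∀ (j : ℕ), IntegrableOn (fun x => ((-1 : ℝ) ^ j * (M.choose j : ℝ)) *
      ∑ i, u x i * g (x + (j : ℝ) • h) i) Dom := by
    intro j
    have h1 := (hint 0 ((j : ℝ) • h)).const_mul ((-1 : ℝ) ^ j * (M.choose j : ℝ))
    simp only [add_zero] at h1
    exact h1
  have hint'' : ∀ (j : ℕ), IntegrableOn (fun x => ((-1 : ℝ) ^ j * (M.choose j : ℝ)) *
      ∑ i, u (x - (j : ℝ) • h) i * g x i) Dom := by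
    intro j
    have h1 := (hint (-((j : ℝ) • h)) 0).const_mul ((-1 : ℝ) ^ j * (M.choose j : ℝ))
    simp only [add_zero, ← sub_eq_add_neg] at h1
    exact h1
  have key : ip u (blk M N f) = ∫ x in Dom, ∑ i,
      (∑ j ∈ Finset.range (M + 1), ((-1 : ℝ) ^ j * (M.choose j : ℝ)) •
        u (x - (j : ℝ) • h)) i * g x i := by
    have e1 : ip u (blk M N f) = ∫ x in Dom, ∑ j ∈ Finset.range (M + 1),
        ((-1 : ℝ) ^ j * (M.choose j : ℝ)) * ∑ i, u x i * g (x + (j : ℝ) • h) i := by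
      unfold ip
      congr 1
      funext x
      rw [blk_eq hN hs x, ← hh]
      simp only [Finset.sum_apply, Pi.smul_apply, smul_eq_mul, Finset.mul_sum]
      rw [Finset.sum_comm]
      refine Finset.sum_congr rfl fun j _ => Finset.sum_congr rfl fun i _ => ?_
      change _ = _ * (u x i * g0 N f (pr (x + (j : ℝ) • h)) i)
      ring
    have e2 : (∫ x in Dom, ∑ i,
      (∑ j ∈ Finset.range (M + 1), ((-1 : ℝ) ^ j * (M.choose j : ℝ)) •
        u (x - (j : ℝ) • h)) i * g x i) = ∫ x in Dom, ∑ j ∈ Finset.range (M + 1),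
        ((-1 : ℝ) ^ j * (M.choose j : ℝ)) * ∑ i, u (x - (j : ℝ) • h) i * g x i := by
      congr 1
      funext x
      simp only [Finset.sum_apply, Pi.smul_apply, smul_eq_mul, Finset.mul_sum, Finset.sum_mul]
      rw [Finset.sum_comm]
      refine Finset.sum_congr rfl fun j _ => Finset.sum_congr rfl fun i _ => ?_
      ring
    rw [e1, e2, integral_finset_sum _ (fun j _ => hint' j),
      integral_finset_sum _ (fun j _ => hint'' j)]
    refine Finset.sum_congr rfl fun j _ => ?_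
    rw [integral_const_mul, integral_const_mul]
    congr 1
    have hper : Periodic3 (fun x => ∑ i, u (x - (j : ℝ) • h) i * g x i) := by
      intro i x
      simp only
      have e1 : x + Pi.single i (2 * Real.pi) - (j : ℝ) • h =
          (x - (j : ℝ) • h) + Pi.single i (2 * Real.pi) := by abel
      rw [e1, hup i, hgp i]
    rw [← integral_translate hper ((j : ℝ) • h)]
    simp only [add_sub_cancel_right]
  rw [key]
  have hDk := fun x => fin_diff h M k hk u B hu hB x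
  have hb := int_bound (G := fun x => ∑ i,
      (∑ j ∈ Finset.range (M + 1), ((-1 : ℝ) ^ j * (M.choose j : ℝ)) •
        u (x - (j : ℝ) • h)) i * g x i) (K := 3 * ((2 ^ (M - k) * (‖h‖ ^ k * B)) * A))
      (a := 2 / 2 ^ N) (b := 2 / 2 ^ N) ?_ (by positivity) (by positivity) ?_ ?_
  · refine hb.trans ?_
    have h1 : ‖h‖ ^ k ≤ 8 ^ M * (1 / 2) ^ (N * k) := by
      refine (pow_le_pow_left₀ (norm_nonneg _) hhn k).trans ?_
      rw [div_pow, div_eq_mul_one_div, pow_mul, one_div_pow, one_div_pow]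
      refine mul_le_mul_of_nonneg_right ?_ (by positivity)
      exact pow_le_pow_right₀ (by norm_num) hk
    have h2 : (2 : ℝ) ^ (M - k) ≤ 2 ^ M := pow_le_pow_right₀ (by norm_num) (Nat.sub_le _ _)
    have h3 : (8 * Real.pi * (2 / 2 ^ N) * (2 / 2 ^ N) : ℝ) = 32 * Real.pi * (1 / 4) ^ N := by
      have : (1 / 4 : ℝ) ^ N = (1 / 2 ^ N) * (1 / 2 ^ N) := by
        rw [← one_div_pow, ← mul_pow]
        norm_num
      rw [this]
      ring
    rw [h3]
    calc 3 * ((2 ^ (M - k) * (‖h‖ ^ k * B)) * A) * (32 * Real.pi * (1 / 4) ^ N)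
        ≤ 3 * ((2 ^ M * ((8 ^ M * (1 / 2) ^ (N * k)) * B)) * A) *
          (32 * Real.pi * (1 / 4) ^ N) := by
          have hpi := Real.pi_pos
          gcongr
      _ = _ := by ring
  · intro i x
    simp only
    have e1 : ∀ j : ℕ, x + Pi.single i (2 * Real.pi) - (j : ℝ) • h =
        (x - (j : ℝ) • h) + Pi.single i (2 * Real.pi) := fun j => by abel
    simp only [e1, hup i]
    rw [hgp i]
  · intro x
    refine (dot_le _ _).trans ?_
    refine mul_le_mul_of_nonneg_left ?_ (by norm_num)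
    exact mul_le_mul (hDk x) (hA _) (norm_nonneg _) (by positivity)
  · intro x hx
    have hgx : g x ≠ 0 := by
      intro h0
      apply hx
      refine Finset.sum_eq_zero fun i _ => ?_
      rw [h0, Pi.zero_apply, mul_zero]
    have h4 := supp_copy hs hp (c := 0) (K := 0) (by simp) (pr x) (by
      rw [add_zero]; exact hgx)
    rw [zero_add] at h4
    exact h4

/-- **module O1** -/
theorem blocks (M n₀ : ℕ) (h : 8 * M + 2 < 2 ^ n₀) (f : ℝ × ℝ → V) (hf : ContDiff ℝ ∞ f)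
    (hs : ∀ z, f z ≠ 0 → |z.1| ≤ 2 ∧ |z.2| ≤ 2)
    (hd : ∀ z, fderiv ℝ f z (1, 0) 0 + fderiv ℝ f z (0, 1) 1 = 0) :
    ∃ C > 0, ∀ C' ≥ C, Blocks M n₀ C' (fun n => blk M (n₀ + n) f) := by
  classical
  have hcs : HasCompactSupport f := by
    refine HasCompactSupport.intro (K := Icc ((-2 : ℝ), (-2 : ℝ)) (2, 2)) isCompact_Icc ?_
    intro z hz
    by_contra hne
    obtain ⟨h1, h2⟩ := hs z hne
    rw [abs_le] at h1 h2
    exact hz ⟨⟨h1.1, h2.1⟩, ⟨h1.2, h2.2⟩⟩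
  have hAk : ∀ k : ℕ, ∃ A : ℝ, ∀ z, ‖iteratedFDeriv ℝ k f z‖ ≤ A := fun k =>
    (hcs.iteratedFDeriv k).exists_bound_of_continuous
      ((contDiff_infty.1 hf k).continuous_iteratedFDeriv le_rfl)
  choose Ak hAk using hAk
  have hAk0 : ∀ k, 0 ≤ Ak k := fun k => (norm_nonneg _).trans (hAk k 0)
  obtain ⟨A, hAdef⟩ : ∃ A : ℝ, A = ∑ k ∈ Finset.range (M + 2), Ak k := ⟨_, rfl⟩
  have hA : ∀ k ≤ M + 1, ∀ z, ‖iteratedFDeriv ℝ k f z‖ ≤ A := by
    intro k hk z
    refine (hAk k z).trans ?_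
    rw [hAdef]
    exact Finset.single_le_sum (fun i _ => hAk0 i) (Finset.mem_range.2 (by omega))
  have hA0 : 0 ≤ A := by
    rw [hAdef]; exact Finset.sum_nonneg fun i _ => hAk0 i
  have hAf : ∀ z, ‖f z‖ ≤ A := fun z => by
    have := hA 0 (by omega) z
    rwa [norm_iteratedFDeriv_zero] at this
  have hpi := Real.pi_pos
  obtain ⟨Q, hQ⟩ : ∃ Q : ℝ, Q = 3 * (2 ^ M * A) ^ 2 * (16 * Real.pi * (8 * M + 2)) := ⟨_, rfl⟩
  have hQ0 : 0 ≤ Q := by rw [hQ]; positivity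
  have hmomc : 0 ≤ 96 * Real.pi * A * 2 ^ M * 8 ^ M := by positivity
  have hMA : 0 ≤ 2 ^ M * A := by positivity
  refine ⟨2 ^ M * A + 96 * Real.pi * A * 2 ^ M * 8 ^ M + (1 + Q), by positivity, fun C' hC' => ?_⟩
  have hC1 : 2 ^ M * A ≤ C' := by linarith
  have hC2 : 96 * Real.pi * A * 2 ^ M * 8 ^ M ≤ C' := by linarith
  have hC3 : 1 + Q ≤ C' := by linarith
  have hN := lam M n₀ h
  have hcpA : ∀ n z, ‖cp M (n₀ + n) f z‖ ≤ 2 ^ M * A := fun n z => by
    have h1 := cp_iter M (n₀ + n) hf 0 (A := A) (hA 0 (by omega)) z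
    rwa [norm_iteratedFDeriv_zero, mul_zero, pow_zero, mul_one] at h1
  refine ⟨fun n => ?_, fun n => ?_, fun n x => ?_, fun n k hk x => ?_, fun n => ?_,
    fun n k hk u B hu hup hB => ?_⟩
  · exact smooth_wrap _ (cp_sq (hN n) hs) (cp_smooth M _ hf)
  · exact comp_per _
  · rw [divergence_eq_sum, Fin.sum_univ_three]
    change fderiv ℝ (fun x => cp M (n₀ + n) f (pr x)) x _ 0 +
      fderiv ℝ (fun x => cp M (n₀ + n) f (pr x)) x _ 1 +
      fderiv ℝ (fun x => cp M (n₀ + n) f (pr x)) x _ 2 = 0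
    rw [fderiv_wrap _ (cp_sq (hN n) hs) (cp_smooth M _ hf),
      fderiv_wrap _ (cp_sq (hN n) hs) (cp_smooth M _ hf),
      fderiv_wrap _ (cp_sq (hN n) hs) (cp_smooth M _ hf)]
    have e0 : PL (Pi.single 0 1 : V) = (1, 0) := by rw [PL_apply]; simp
    have e1 : PL (Pi.single 1 1 : V) = (0, 1) := by rw [PL_apply]; simp
    have e2 : PL (Pi.single 2 1 : V) = 0 := by rw [PL_apply]; simp
    rw [e0, e1, e2, map_zero, Pi.zero_apply, add_zero]
    exact cp_div hf hd M (n₀ + n) _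
  · refine (iter_wrap (cp M (n₀ + n) f) (cp_sq (hN n) hs) (cp_smooth M _ hf) k
      (cp_iter M (n₀ + n) hf k (hA k hk)) x).trans ?_
    exact mul_le_mul_of_nonneg_right hC1 (by positivity)
  · have hb := int_bound (G := fun x => sq3 (blk M (n₀ + n) f x)) (K := 3 * (2 ^ M * A) ^ 2)
      (a := (8 * M + 2) / 2 ^ (n₀ + n)) (b := 2 / 2 ^ (n₀ + n)) ?_ (by positivity)
      (by positivity) ?_ ?_
    · refine (le_abs_self _).trans (hb.trans ?_)
      have h3 : (8 * Real.pi * ((8 * M + 2) / 2 ^ (n₀ + n)) * (2 / 2 ^ (n₀ + n)) : ℝ) =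
          (16 * Real.pi * (8 * M + 2)) * (1 / 4) ^ (n₀ + n) := by
        have : (1 / 4 : ℝ) ^ (n₀ + n) = (1 / 2 ^ (n₀ + n)) * (1 / 2 ^ (n₀ + n)) := by
          rw [← one_div_pow, ← mul_pow]
          norm_num
        rw [this]
        ring
      rw [h3, ← mul_assoc, ← hQ]
      refine mul_le_mul_of_nonneg_right ?_ (by positivity)
      nlinarith
    · intro i x
      simp only
      have := comp_per (cp M (n₀ + n) f) i x
      simp only at this
      unfold blk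
      rw [this]
    · intro x
      rw [abs_of_nonneg (sq3_nonneg _)]
      refine (sq3_le _).trans ?_
      refine mul_le_mul_of_nonneg_left ?_ (by norm_num)
      exact pow_le_pow_left₀ (norm_nonneg _) (hcpA n _) 2
    · intro x hx
      refine supp_cp M (n₀ + n) hs (pr x) fun h0 => hx ?_
      unfold blk
      rw [h0]
      simp [sq3]
  · refine (mom_bound (hN n) hf hs hAf k hk u B hu hup hB).trans ?_
    have hB0 : 0 ≤ B := (norm_nonneg _).trans (hB 0)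
    refine mul_le_mul_of_nonneg_right ?_ (by positivity)
    exact mul_le_mul_of_nonneg_right hC2 hB0

end Pool.Agent.Zk94.MB
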