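import Pool.Agent.Zk27.MB.Cut3
import Pool.Agent.Zk94.MB.O1

/-!
# Blocks, uniformly bounded coefficients
-/

open MeasureTheory Set
open scoped ContDiff Topology

set_option linter.all false

namespace Pool.Agent.Zk94.MB

open Pool.Agent.H708R2.EulerSign Pool.Agent.H708R2.EulerModes
open Pool.Agent.R739.ET (wr wr_add wr_mem wr_exists wr_eq wr_near near_mem)
open Pool.Agent.Zk27.MB

/-! ### Taylor's formula -/

section taylor

variable {A E : Type} [NormedAddCommGroup A] [NormedSpace ℝ A] [NormedAddCommGroup E]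
  [NormedSpace ℝ E]

lemma iter_comp' {A' : Type} [NormedAddCommGroup A'] [NormedSpace ℝ A'] (g : A → E) (k : ℕ)
    (hg : ContDiff ℝ k g) (L : A' →L[ℝ] A) (d : A) (x : A') :
    ‖iteratedFDeriv ℝ k (fun x => g (L x + d)) x‖ ≤
      ‖iteratedFDeriv ℝ k g (L x + d)‖ * ‖L‖ ^ k := by
  have h1 : (fun x => g (L x + d)) = (fun z => g (z + d)) ∘ L := rfl
  have h2 : ContDiff ℝ k (fun z => g (z + d)) := hg.comp (contDiff_id.add contDiff_const)
  rw [h1, L.iteratedFDeriv_comp_right h2 x le_rfl]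
  refine (ContinuousMultilinearMap.norm_compContinuousLinearMap_le _ _).trans ?_
  rw [Finset.prod_const, Finset.card_univ, Fintype.card_fin, iteratedFDeriv_comp_add_right]

/-- combinations with vanishing moments -/
theorem taylor_sum (m : ℕ) (c s : ℕ → ℝ) (hs0 : ∀ j, 0 ≤ s j) (k : ℕ)
    (hm : ∀ i < k, ∑ j ∈ Finset.range m, c j * s j ^ i = 0) (h : A) (u : A → E) {B : ℝ}
    (hu : ContDiff ℝ k u) (hB : ∀ x, ‖iteratedFDeriv ℝ k u x‖ ≤ B) (x : A) :
    ‖∑ j ∈ Finset.range m, c j • u (x - s j • h)‖ ≤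
      (∑ j ∈ Finset.range m, |c j| * s j ^ k) * (‖h‖ ^ k * B) := by
  have hB0 : 0 ≤ B := (norm_nonneg _).trans (hB 0)
  rcases k with _ | n
  · refine (norm_sum_le _ _).trans ?_
    rw [Finset.sum_mul]
    refine Finset.sum_le_sum fun j _ => ?_
    rw [norm_smul, Real.norm_eq_abs, pow_zero, mul_one, pow_zero, one_mul]
    refine mul_le_mul_of_nonneg_left ?_ (abs_nonneg _)
    rw [← norm_iteratedFDeriv_zero (𝕜 := ℝ)]
    exact hB _
  · obtain ⟨b, hb, hsb⟩ : ∃ b : ℝ, 0 < b ∧ ∀ j ∈ Finset.range m, s j ≤ b := by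
      refine ⟨1 + ∑ j ∈ Finset.range m, s j, by
        have := Finset.sum_nonneg fun j (_ : j ∈ Finset.range m) => hs0 j
        linarith, fun j hj => ?_⟩
      have := Finset.single_le_sum (fun i _ => hs0 i) hj
      linarith
    let L : ℝ →L[ℝ] A := (ContinuousLinearMap.id ℝ ℝ).smulRight (-h)
    have hL : ∀ t, L t = t • (-h) := fun t => rfl
    have hLn : ‖L‖ ≤ ‖h‖ := by
      refine ContinuousLinearMap.opNorm_le_bound _ (norm_nonneg _) fun t => ?_
      rw [hL, norm_smul, norm_neg, mul_comm]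
    let φ : ℝ → E := fun t => u (L t + x)
    have hφ : ContDiff ℝ ((n + 1 : ℕ) : WithTop ℕ∞) φ :=
      hu.comp (L.contDiff.add contDiff_const)
    have hφe : ∀ t, φ t = u (x - t • h) := by
      intro t
      change u (L t + x) = _
      rw [hL, smul_neg, neg_add_eq_sub]
    have hud : UniqueDiffOn ℝ (Icc 0 b) := uniqueDiffOn_Icc hb
    have hbd : ∀ y ∈ Icc 0 b, ‖iteratedDerivWithin (n + 1) φ (Icc 0 b) y‖ ≤ ‖h‖ ^ (n + 1) * B := by
      intro y hy
      rw [iteratedDerivWithin_eq_iteratedDeriv hud hφ.contDiffAt hy,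
        ← norm_iteratedFDeriv_eq_norm_iteratedDeriv]
      refine (iter_comp' u (n + 1) hu L x y).trans ?_
      rw [mul_comm]
      exact mul_le_mul (pow_le_pow_left₀ (norm_nonneg _) hLn _) (hB _) (norm_nonneg _)
        (by positivity)
    have hT : ∀ j ∈ Finset.range m, ‖φ (s j) - taylorWithinEval φ n (Icc 0 b) 0 (s j)‖ ≤
        s j ^ (n + 1) * (‖h‖ ^ (n + 1) * B) := by
      intro j hj
      have h1 := taylor_mean_remainder_bound (n := n) hb.le (by exact_mod_cast hφ.contDiffOn)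
        ⟨hs0 j, hsb j hj⟩ hbd
      rw [sub_zero] at h1
      refine h1.trans ?_
      have h2 : (1 : ℝ) ≤ n.factorial := by exact_mod_cast Nat.one_le_iff_ne_zero.2 (Nat.factorial_ne_zero n)
      have h3 : 0 ≤ ‖h‖ ^ (n + 1) * B * s j ^ (n + 1) := by
        have := hs0 j
        positivity
      rw [mul_comm (s j ^ (n + 1))]
      exact div_le_self h3 h2
    have hz : ∑ j ∈ Finset.range m, c j • taylorWithinEval φ n (Icc 0 b) 0 (s j) = 0 := by
      simp only [taylor_within_apply, sub_zero, Finset.smul_sum]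
      rw [Finset.sum_comm]
      refine Finset.sum_eq_zero fun i hi => ?_
      simp only [smul_smul]
      rw [← Finset.sum_smul]
      have h4 : ∑ j ∈ Finset.range m, c j * (((i.factorial : ℝ))⁻¹ * s j ^ i) = 0 := by
        have h5 := hm i (Finset.mem_range.1 hi)
        have h6 : ∑ j ∈ Finset.range m, c j * (((i.factorial : ℝ))⁻¹ * s j ^ i) =
            ((i.factorial : ℝ))⁻¹ * ∑ j ∈ Finset.range m, c j * s j ^ i := by
          rw [Finset.mul_sum]
          exact Finset.sum_congr rfl fun j _ => by ring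
        rw [h6, h5, mul_zero]
      rw [h4, zero_smul]
    have he : ∑ j ∈ Finset.range m, c j • u (x - s j • h) =
        ∑ j ∈ Finset.range m, c j • (φ (s j) - taylorWithinEval φ n (Icc 0 b) 0 (s j)) := by
      simp only [smul_sub]
      rw [Finset.sum_sub_distrib, hz, sub_zero]
      exact Finset.sum_congr rfl fun j _ => by rw [hφe]
    rw [he]
    refine (norm_sum_le _ _).trans ?_
    rw [Finset.sum_mul]
    refine Finset.sum_le_sum fun j hj => ?_
    rw [norm_smul, Real.norm_eq_abs, mul_assoc]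
    exact mul_le_mul_of_nonneg_left (hT j hj) (abs_nonneg _)

end taylor

/-! ### general copies -/

/-- a combination of copies of `f` at the scale `2^{-N}` -/
noncomputable def cq (m N : ℕ) (c s : ℕ → ℝ) (f : ℝ × ℝ → V) (z : ℝ × ℝ) : V :=
  ∑ j ∈ Finset.range m, c j • f (2 ^ N * z.1 + 8 * s j, 2 ^ N * z.2)

section prof

variable {f : ℝ × ℝ → V} {m N : ℕ} {c s : ℕ → ℝ}

lemma cq_eq (z : ℝ × ℝ) : cq m N c s f z =
    ∑ j ∈ Finset.range m, c j •
      f ((((2 : ℝ) ^ N) • ContinuousLinearMap.id ℝ (ℝ × ℝ)) z + (8 * s j, 0)) := by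
  unfold cq
  refine Finset.sum_congr rfl fun j _ => ?_
  congr 2
  ext <;> simp

lemma cq_smooth (hf : ContDiff ℝ ∞ f) : ContDiff ℝ ∞ (cq m N c s f) := by
  have h1 : cq m N c s f = fun z => ∑ j ∈ Finset.range m, c j •
      f ((((2 : ℝ) ^ N) • ContinuousLinearMap.id ℝ (ℝ × ℝ)) z + (8 * s j, 0)) :=
    funext fun z => cq_eq z
  rw [h1]
  refine ContDiff.sum fun j _ => ?_
  exact (hf.comp ((ContinuousLinearMap.contDiff _).add contDiff_const)).const_smul _

lemma cq_iter (hf : ContDiff ℝ ∞ f) (k : ℕ) {A : ℝ}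
    (hA : ∀ z, ‖iteratedFDeriv ℝ k f z‖ ≤ A) (z : ℝ × ℝ) :
    ‖iteratedFDeriv ℝ k (cq m N c s f) z‖ ≤ (∑ j ∈ Finset.range m, |c j|) * A * 2 ^ (N * k) := by
  let L : (ℝ × ℝ) →L[ℝ] ℝ × ℝ := ((2 : ℝ) ^ N) • ContinuousLinearMap.id ℝ (ℝ × ℝ)
  have hL : ‖L‖ ≤ 2 ^ N := by
    refine ContinuousLinearMap.opNorm_le_bound _ (by positivity) fun x => ?_
    change ‖(2 : ℝ) ^ N • x‖ ≤ _
    rw [norm_smul, Real.norm_of_nonneg (by positivity)]
  have hA0 : 0 ≤ A := (norm_nonneg _).trans (hA 0)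
  let g : ℕ → ℝ × ℝ → V := fun j z => f (L z + (8 * s j, 0))
  have hg : ∀ j, ContDiff ℝ k (g j) := fun j =>
    (contDiff_infty.1 hf k).comp ((ContinuousLinearMap.contDiff _).add contDiff_const)
  let G : ℕ → ℝ × ℝ → V := fun j => c j • g j
  have hG : ∀ j ∈ Finset.range m, ContDiff ℝ k (G j) := fun j _ => ContDiff.const_smul (c j) (hg j)
  have h1 : cq m N c s f = fun z => ∑ j ∈ Finset.range m, G j z := funext fun z => cq_eq z
  rw [h1, iteratedFDeriv_sum hG, Finset.sum_apply]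
  refine (norm_sum_le _ _).trans ?_
  have h2 : ∀ j ∈ Finset.range m, ‖iteratedFDeriv ℝ k (G j) z‖ ≤
        |c j| * (A * 2 ^ (N * k)) := by
    intro j _
    rw [iteratedFDeriv_const_smul_apply (hg j).contDiffAt, norm_smul, Real.norm_eq_abs]
    refine mul_le_mul_of_nonneg_left ?_ (abs_nonneg _)
    refine (iter_comp f hf L _ k z).trans ?_
    rw [pow_mul]
    exact mul_le_mul (hA _) (pow_le_pow_left₀ (norm_nonneg _) hL k) (by positivity) hA0
  refine (Finset.sum_le_sum h2).trans ?_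
  rw [← Finset.sum_mul, mul_assoc]

lemma supp_cq {S : ℝ} (hs0 : ∀ j, 0 ≤ s j) (hS : ∀ j ∈ Finset.range m, s j ≤ S)
    (hs : ∀ z, f z ≠ 0 → |z.1| ≤ 2 ∧ |z.2| ≤ 2) (z : ℝ × ℝ)
    (hz : cq m N c s f z ≠ 0) : |z.1| ≤ (8 * S + 2) / 2 ^ N ∧ |z.2| ≤ 2 / 2 ^ N := by
  unfold cq at hz
  obtain ⟨j, hj, hj2⟩ := Finset.exists_ne_zero_of_sum_ne_zero hz
  have hj' := hS j hj
  have hj0 := hs0 j
  refine supp_copy hs (by positivity) (c := 8 * s j) ?_ z fun h0 => hj2 (by rw [h0, smul_zero])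
  rw [abs_of_nonneg (by positivity)]
  linarith

lemma cq_div (hf : ContDiff ℝ ∞ f)
    (hd : ∀ z, fderiv ℝ f z (1, 0) 0 + fderiv ℝ f z (0, 1) 1 = 0) (z : ℝ × ℝ) :
    fderiv ℝ (cq m N c s f) z (1, 0) 0 + fderiv ℝ (cq m N c s f) z (0, 1) 1 = 0 := by
  let L : (ℝ × ℝ) →L[ℝ] ℝ × ℝ := ((2 : ℝ) ^ N) • ContinuousLinearMap.id ℝ (ℝ × ℝ)
  have h1 : HasFDerivAt (cq m N c s f) (∑ j ∈ Finset.range m,
      c j • (fderiv ℝ f (L z + (8 * s j, 0))).comp L) z := by
    have h0 : cq m N c s f = fun z => ∑ j ∈ Finset.range m, c j • f (L z + (8 * s j, 0)) :=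
      funext fun z => cq_eq z
    rw [h0]
    refine HasFDerivAt.fun_sum fun j _ => ?_
    have h2 : HasFDerivAt f (fderiv ℝ f (L z + (8 * s j, 0))) (L z + (8 * s j, 0)) :=
      (hf.differentiable (by simp) _).hasFDerivAt
    have h3 : HasFDerivAt (fun y => L y + (8 * s j, (0 : ℝ))) L z := L.hasFDerivAt.add_const _
    exact (h2.comp z h3).const_smul (c j)
  have hL : ∀ v, L v = (2 : ℝ) ^ N • v := fun v => rfl
  rw [h1.fderiv]
  simp only [ContinuousLinearMap.sum_apply, ContinuousLinearMap.smul_apply,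
    ContinuousLinearMap.comp_apply, hL, map_smul, Finset.sum_apply, Pi.smul_apply, smul_eq_mul]
  rw [← Finset.sum_add_distrib]
  refine Finset.sum_eq_zero fun j _ => ?_
  have h4 := hd ((2 : ℝ) ^ N • z + (8 * s j, 0))
  linear_combination (c j) * 2 ^ N * h4

lemma cq_sq {S : ℝ} (hN : (8 * S + 2 : ℝ) < 2 ^ N) (hS0 : 0 ≤ S) (hs0 : ∀ j, 0 ≤ s j)
    (hS : ∀ j ∈ Finset.range m, s j ≤ S)
    (hs : ∀ z, f z ≠ 0 → |z.1| ≤ 2 ∧ |z.2| ≤ 2) : Sq (cq m N c s f) := by
  intro z hz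
  by_contra hne
  obtain ⟨h1, h2⟩ := supp_cq hs0 hS hs z hne
  have hp : (0 : ℝ) < 2 ^ N := by positivity
  rw [le_div_iff₀ hp] at h1 h2
  rcases hz with h | h
  · nlinarith
  · nlinarith

lemma copy_eq' {S : ℝ} (hN : (8 * S + 2 : ℝ) < 2 ^ N) (hs : ∀ z, f z ≠ 0 → |z.1| ≤ 2 ∧ |z.2| ≤ 2)
    (r : ℝ) (hr0 : 0 ≤ r) (hr : r ≤ S) (x : V) :
    f (2 ^ N * (pr x).1 + 8 * r, 2 ^ N * (pr x).2) =
      g0 N f (pr (x + r • (Pi.single 0 (8 / 2 ^ N) : V))) := by
  have hp : (0 : ℝ) < 2 ^ N := by positivity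
  have hpi := Real.pi_gt_three
  obtain ⟨t, ht⟩ : ∃ t : ℝ, t = r * (8 / 2 ^ N) := ⟨_, rfl⟩
  have htN : 2 ^ N * t = 8 * r := by rw [ht]; field_simp
  have ht0 : 0 ≤ t := by rw [ht]; positivity
  have ht1 : t < 1 := by
    by_contra hcon
    push Not at hcon
    nlinarith
  have e0 : (x + r • (Pi.single 0 (8 / 2 ^ N) : V)) 0 = x 0 + t := by
    rw [ht]; simp
  have e1 : (x + r • (Pi.single 0 (8 / 2 ^ N) : V)) 1 = x 1 := by simp
  have hw := wr_mem (x 0)
  obtain ⟨m, hm⟩ := wr_exists (x 0)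
  have hN2 : (2 : ℝ) < 2 ^ N := by linarith
  unfold g0 pr
  simp only
  rw [e0, e1]
  by_cases hc : wr (x 0) + t ≤ Real.pi
  · have h1 : wr (x 0 + t) = wr (x 0) + t :=
      wr_eq ⟨by linarith [hw.1], hc⟩ ⟨m, by linarith⟩
    rw [h1, mul_add, htN]
  · push Not at hc
    have h1 : wr (x 0 + t) = wr (x 0) + t - 2 * Real.pi :=
      wr_eq ⟨by linarith, by linarith [hw.2]⟩ ⟨m + 1, by push_cast; linarith⟩
    rw [h1]
    have h2 : f (2 ^ N * wr (x 0) + 8 * r, 2 ^ N * wr (x 1)) = 0 := by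
      by_contra hne
      have h3 := (hs _ hne).1
      simp only at h3
      rw [← htN, ← mul_add, abs_mul, abs_of_pos hp] at h3
      have h4 : Real.pi < |wr (x 0) + t| := hc.trans_le (le_abs_self _)
      nlinarith
    have h5 : f (2 ^ N * (wr (x 0) + t - 2 * Real.pi), 2 ^ N * wr (x 1)) = 0 := by
      by_contra hne
      have h3 := (hs _ hne).1
      simp only at h3
      rw [abs_mul, abs_of_pos hp] at h3
      have h4 : 2 ≤ |wr (x 0) + t - 2 * Real.pi| := by
        rw [le_abs]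
        right
        linarith [hw.2]
      nlinarith
    rw [h2, h5]

end prof

section bounds

variable {f : ℝ × ℝ → V} {m N : ℕ} {c s : ℕ → ℝ} {S : ℝ}

lemma cq_pr (hN : (8 * S + 2 : ℝ) < 2 ^ N) (hs0 : ∀ j, 0 ≤ s j)
    (hS : ∀ j ∈ Finset.range m, s j ≤ S) (hs : ∀ z, f z ≠ 0 → |z.1| ≤ 2 ∧ |z.2| ≤ 2) (x : V) :
    cq m N c s f (pr x) = ∑ j ∈ Finset.range m, c j •
      g0 N f (pr (x + s j • (Pi.single 0 (8 / 2 ^ N) : V))) := by
  unfold cq
  refine Finset.sum_congr rfl fun j hj => ?_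
  rw [copy_eq' hN hs (s j) (hs0 j) (hS j hj) x]

theorem mom_bound3 (hN : (8 * S + 2 : ℝ) < 2 ^ N) (hS0 : 0 ≤ S) (hs0 : ∀ j, 0 ≤ s j)
    (hS : ∀ j ∈ Finset.range m, s j ≤ S)
    (hf : ContDiff ℝ ∞ f) (hs : ∀ z, f z ≠ 0 → |z.1| ≤ 2 ∧ |z.2| ≤ 2) {A : ℝ}
    (hA : ∀ z, ‖f z‖ ≤ A) (k : ℕ) (hm : ∀ i < k, ∑ j ∈ Finset.range m, c j * s j ^ i = 0)
    {Q : ℝ} (hQ : ∑ j ∈ Finset.range m, |c j| * s j ^ k ≤ Q)
    (u : V → V) (B : ℝ) (hu : ContDiff ℝ k u)
    (hup : Periodic3 u) (hB : ∀ x, ‖iteratedFDeriv ℝ k u x‖ ≤ B) :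
    |ip u (fun x => cq m N c s f (pr x))| ≤ 96 * Real.pi * A * Q * 8 ^ k * B *
      ((1 / 4) ^ N * (1 / 2) ^ (N * k)) := by
  have hp : (0 : ℝ) < 2 ^ N := by positivity
  have hN2 : (2 : ℝ) < 2 ^ N := by linarith
  have hA0 : 0 ≤ A := (norm_nonneg _).trans (hA 0)
  have hB0 : 0 ≤ B := (norm_nonneg _).trans (hB 0)
  have hQ0 : 0 ≤ Q := le_trans (Finset.sum_nonneg fun j _ => by
    have := hs0 j
    positivity) hQ
  obtain ⟨h, hh⟩ : ∃ h : V, h = Pi.single 0 (8 / 2 ^ N) := ⟨_, rfl⟩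
  have hhn : ‖h‖ ≤ 8 / 2 ^ N := by
    rw [hh]
    refine (pi_norm_le_iff_of_nonneg (by positivity)).2 fun i => ?_
    by_cases hi : i = 0
    · subst hi
      rw [Pi.single_eq_same, Real.norm_of_nonneg (by positivity)]
    · rw [Pi.single_eq_of_ne hi, norm_zero]
      positivity
  have huc : Continuous u := hu.continuous
  let g : V → V := fun x => g0 N f (pr x)
  have hgc : Continuous g := (smooth_wrap _ (g0_sq hN2 hs) (g0_smooth N hf)).continuous
  have hgp : Periodic3 g := comp_per _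
  have hint : ∀ c d : V, IntegrableOn (fun x => ∑ i, u (x + c) i * g (x + d) i) Dom := by
    intro c d
    refine Periodic3.integrableOn ?_ ?_
    · intro i x
      simp only
      have e1 : x + Pi.single i (2 * Real.pi) + c = (x + c) + Pi.single i (2 * Real.pi) := by abel
      have e2 : x + Pi.single i (2 * Real.pi) + d = (x + d) + Pi.single i (2 * Real.pi) := by abel
      rw [e1, e2, hup i, hgp i]
    · refine continuous_finset_sum _ fun i _ => ?_
      exact ((continuous_apply i).comp (huc.comp (continuous_id.add continuous_const))).mul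
        ((continuous_apply i).comp (hgc.comp (continuous_id.add continuous_const)))
  have hint' : ∀ (j : ℕ), IntegrableOn (fun x => c j *
      ∑ i, u x i * g (x + s j • h) i) Dom := by
    intro j
    have h1 := (hint 0 (s j • h)).const_mul (c j)
    simp only [add_zero] at h1
    exact h1
  have hint'' : ∀ (j : ℕ), IntegrableOn (fun x => c j *
      ∑ i, u (x - s j • h) i * g x i) Dom := by
    intro j
    have h1 := (hint (-(s j • h)) 0).const_mul (c j)
    simp only [add_zero, ← sub_eq_add_neg] at h1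
    exact h1
  have key : ip u (fun x => cq m N c s f (pr x)) = ∫ x in Dom, ∑ i,
      (∑ j ∈ Finset.range m, c j • u (x - s j • h)) i * g x i := by
    have e1 : ip u (fun x => cq m N c s f (pr x)) = ∫ x in Dom, ∑ j ∈ Finset.range m,
        c j * ∑ i, u x i * g (x + s j • h) i := by
      unfold ip
      congr 1
      funext x
      simp only
      rw [cq_pr hN hs0 hS hs x, ← hh]
      simp only [Finset.sum_apply, Pi.smul_apply, smul_eq_mul, Finset.mul_sum]
      rw [Finset.sum_comm]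
      refine Finset.sum_congr rfl fun j _ => Finset.sum_congr rfl fun i _ => ?_
      change _ = _ * (u x i * g0 N f (pr (x + s j • h)) i)
      ring
    have e2 : (∫ x in Dom, ∑ i,
      (∑ j ∈ Finset.range m, c j • u (x - s j • h)) i * g x i) =
        ∫ x in Dom, ∑ j ∈ Finset.range m,
        c j * ∑ i, u (x - s j • h) i * g x i := by
      congr 1
      funext x
      simp only [Finset.sum_apply, Pi.smul_apply, smul_eq_mul, Finset.mul_sum, Finset.sum_mul]
      rw [Finset.sum_comm]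
      refine Finset.sum_congr rfl fun j _ => Finset.sum_congr rfl fun i _ => ?_
      ring
    rw [e1, e2, integral_finset_sum _ (fun j _ => hint' j),
      integral_finset_sum _ (fun j _ => hint'' j)]
    refine Finset.sum_congr rfl fun j _ => ?_
    rw [integral_const_mul, integral_const_mul]
    congr 1
    have hper : Periodic3 (fun x => ∑ i, u (x - s j • h) i * g x i) := by
      intro i x
      simp only
      have e1 : x + Pi.single i (2 * Real.pi) - s j • h =
          (x - s j • h) + Pi.single i (2 * Real.pi) := by abel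
      rw [e1, hup i, hgp i]
    rw [← integral_translate hper (s j • h)]
    simp only [add_sub_cancel_right]
  rw [key]
  have hDk : ∀ x, ‖∑ j ∈ Finset.range m, c j • u (x - s j • h)‖ ≤ Q * (‖h‖ ^ k * B) := by
    intro x
    refine (taylor_sum m c s hs0 k hm h u hu hB x).trans ?_
    exact mul_le_mul_of_nonneg_right hQ (by positivity)
  have hb := int_bound (G := fun x => ∑ i,
      (∑ j ∈ Finset.range m, c j • u (x - s j • h)) i * g x i)
      (K := 3 * ((Q * (‖h‖ ^ k * B)) * A))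
      (a := 2 / 2 ^ N) (b := 2 / 2 ^ N) ?_ (by positivity) (by positivity) ?_ ?_
  · refine hb.trans ?_
    have h1 : ‖h‖ ^ k ≤ 8 ^ k * (1 / 2) ^ (N * k) := by
      refine (pow_le_pow_left₀ (norm_nonneg _) hhn k).trans ?_
      rw [div_pow, div_eq_mul_one_div, pow_mul, one_div_pow, one_div_pow]
    have h3 : (8 * Real.pi * (2 / 2 ^ N) * (2 / 2 ^ N) : ℝ) = 32 * Real.pi * (1 / 4) ^ N := by
      have : (1 / 4 : ℝ) ^ N = (1 / 2 ^ N) * (1 / 2 ^ N) := by
        rw [← one_div_pow, ← mul_pow]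
        norm_num
      rw [this]
      ring
    rw [h3]
    calc 3 * ((Q * (‖h‖ ^ k * B)) * A) * (32 * Real.pi * (1 / 4) ^ N)
        ≤ 3 * ((Q * ((8 ^ k * (1 / 2) ^ (N * k)) * B)) * A) *
          (32 * Real.pi * (1 / 4) ^ N) := by
          have hpi := Real.pi_pos
          gcongr
      _ = _ := by ring
  · intro i x
    simp only
    have e1 : ∀ j : ℕ, x + Pi.single i (2 * Real.pi) - s j • h =
        (x - s j • h) + Pi.single i (2 * Real.pi) := fun j => by abel
    simp only [e1, hup i]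
    rw [hgp i]
  · intro x
    refine (dot_le _ _).trans ?_
    refine mul_le_mul_of_nonneg_left ?_ (by norm_num)
    exact mul_le_mul (hDk x) (hA _) (norm_nonneg _) (by positivity)
  · intro x hx
    have hgx : g x ≠ 0 := by
      intro h0
      apply hx
      refine Finset.sum_eq_zero fun i _ => ?_
      rw [h0, Pi.zero_apply, mul_zero]
    have h4 := supp_copy hs hp (c := 0) (K := 0) (by simp) (pr x) (by
      rw [add_zero]; exact hgx)
    rw [zero_add] at h4
    exact h4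

/-- the `L²` norm of the sum of the copies -/
theorem l2_bound3 (hN : (8 * S + 2 : ℝ) < 2 ^ N) (hS0 : 0 ≤ S) (hs0 : ∀ j, 0 ≤ s j)
    (hS : ∀ j ∈ Finset.range m, s j ≤ S)
    (hf : ContDiff ℝ ∞ f) (hs : ∀ z, f z ≠ 0 → |z.1| ≤ 2 ∧ |z.2| ≤ 2) {A : ℝ}
    (hA : ∀ z, ‖f z‖ ≤ A) {Q : ℝ} (hQ : ∑ j ∈ Finset.range m, |c j| ≤ Q) :
    ∫ x in Dom, sq3 (cq m N c s f (pr x)) ≤ 96 * Real.pi * A ^ 2 * Q ^ 2 * (1 / 4) ^ N := by
  have hp : (0 : ℝ) < 2 ^ N := by positivity
  have hN2 : (2 : ℝ) < 2 ^ N := by linarith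
  have hA0 : 0 ≤ A := (norm_nonneg _).trans (hA 0)
  have hQ0 : 0 ≤ ∑ j ∈ Finset.range m, |c j| := Finset.sum_nonneg fun j _ => abs_nonneg _
  obtain ⟨P, hP⟩ : ∃ P, P = ∑ j ∈ Finset.range m, |c j| := ⟨_, rfl⟩
  rw [← hP] at hQ hQ0
  obtain ⟨h, hh⟩ : ∃ h : V, h = Pi.single 0 (8 / 2 ^ N) := ⟨_, rfl⟩
  let g : V → V := fun x => g0 N f (pr x)
  have hgc : Continuous g := (smooth_wrap _ (g0_sq hN2 hs) (g0_smooth N hf)).continuous
  have hgp : Periodic3 g := comp_per _
  have hsp : Periodic3 (fun x => sq3 (g x)) := by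
    intro i x
    simp only
    rw [hgp i]
  have hsc : ∀ {w : V → V}, Continuous w → Continuous (fun x => sq3 (w x)) := by
    intro w hw
    unfold sq3
    exact continuous_finset_sum _ fun i _ => ((continuous_apply i).comp hw).pow 2
  have hint : ∀ j : ℕ, IntegrableOn (fun x => |c j| * sq3 (g (x + s j • h))) Dom := by
    intro j
    refine (Periodic3.integrableOn ?_ ?_).const_mul _
    · intro i x
      simp only
      have e1 : x + Pi.single i (2 * Real.pi) + s j • h =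
          (x + s j • h) + Pi.single i (2 * Real.pi) := by abel
      rw [e1, hgp i]
    · exact hsc (hgc.comp (continuous_id.add continuous_const))
  have hpt : ∀ x, sq3 (cq m N c s f (pr x)) ≤ P * ∑ j ∈ Finset.range m,
      |c j| * sq3 (g (x + s j • h)) := by
    intro x
    have e1 : ∀ i, (cq m N c s f (pr x) i) ^ 2 ≤ P * ∑ j ∈ Finset.range m,
        |c j| * (g (x + s j • h) i) ^ 2 := by
      intro i
      have e2 : cq m N c s f (pr x) i = ∑ j ∈ Finset.range m, c j * g (x + s j • h) i := by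
        rw [cq_pr hN hs0 hS hs x, ← hh]
        simp only [Finset.sum_apply, Pi.smul_apply, smul_eq_mul]
        rfl
      rw [e2, hP]
      refine Finset.sum_sq_le_sum_mul_sum_of_sq_eq_mul _ (fun j _ => abs_nonneg _)
        (fun j _ => by positivity) fun j _ => ?_
      rw [mul_pow]
      rw [← mul_assoc, ← sq_abs (c j), sq]
    unfold sq3
    refine (Finset.sum_le_sum fun i _ => e1 i).trans_eq ?_
    rw [← Finset.mul_sum, Finset.sum_comm]
    congr 1
    refine Finset.sum_congr rfl fun j _ => ?_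
    rw [Finset.mul_sum]
  have hI : ∫ x in Dom, sq3 (g x) ≤ 96 * Real.pi * A ^ 2 * (1 / 4) ^ N := by
    have hb := int_bound (G := fun x => sq3 (g x)) (K := 3 * A ^ 2)
      (a := 2 / 2 ^ N) (b := 2 / 2 ^ N) hsp (by positivity) (by positivity) ?_ ?_
    · refine (le_abs_self _).trans (hb.trans_eq ?_)
      have : (1 / 4 : ℝ) ^ N = (1 / 2 ^ N) * (1 / 2 ^ N) := by
        rw [← one_div_pow, ← mul_pow]
        norm_num
      rw [this]
      ring
    · intro x
      rw [abs_of_nonneg (sq3_nonneg _)]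
      refine (sq3_le _).trans ?_
      refine mul_le_mul_of_nonneg_left ?_ (by norm_num)
      exact pow_le_pow_left₀ (norm_nonneg _) (hA _) 2
    · intro x hx
      have h4 := supp_copy hs hp (c := 0) (K := 0) (by simp) (pr x) (by
        rw [add_zero]
        intro h0
        apply hx
        have : g x = 0 := h0
        rw [this]
        simp [sq3])
      rw [zero_add] at h4
      exact h4
  have hblkI : IntegrableOn (fun x => sq3 (cq m N c s f (pr x))) Dom := by
    refine Periodic3.integrableOn ?_ ?_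
    · intro i x
      simp only
      have := comp_per (cq m N c s f) i x
      simp only at this
      rw [this]
    · exact hsc (smooth_wrap _ (cq_sq hN hS0 hs0 hS hs) (cq_smooth hf)).continuous
  calc ∫ x in Dom, sq3 (cq m N c s f (pr x))
      ≤ ∫ x in Dom, P * ∑ j ∈ Finset.range m, |c j| * sq3 (g (x + s j • h)) := by
        refine setIntegral_mono hblkI ?_ hpt
        exact (integrable_finset_sum _ fun j _ => hint j).const_mul _
    _ = P * ∑ j ∈ Finset.range m, |c j| * ∫ x in Dom, sq3 (g x) := by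
        rw [integral_const_mul, integral_finset_sum _ fun j _ => hint j]
        congr 1
        refine Finset.sum_congr rfl fun j _ => ?_
        rw [integral_const_mul]
        congr 1
        exact integral_translate hsp (s j • h)
    _ = P * P * ∫ x in Dom, sq3 (g x) := by
        rw [← Finset.sum_mul, ← hP, mul_assoc]
    _ ≤ P * P * (96 * Real.pi * A ^ 2 * (1 / 4) ^ N) :=
        mul_le_mul_of_nonneg_left hI (by positivity)
    _ ≤ Q * Q * (96 * Real.pi * A ^ 2 * (1 / 4) ^ N) := by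
        refine mul_le_mul_of_nonneg_right ?_ (by positivity)
        exact mul_le_mul hQ hQ hQ0 (hQ0.trans hQ)
    _ = _ := by ring

end bounds

lemma lam3 (n₀ : ℕ) (hn₀ : 6 ≤ n₀) (n : ℕ) :
    (8 * (2 : ℝ) ^ ((n₀ + n) / 4) + 2 : ℝ) < 2 ^ (n₀ + n) := by
  have h1 : 8 * 2 ^ ((n₀ + n) / 4) + 2 < 2 ^ (n₀ + n) := by
    have h2 : (n₀ + n) / 4 + 4 ≤ n₀ + n - 1 := by omega
    have h3 : 2 ^ ((n₀ + n) / 4 + 4) ≤ 2 ^ (n₀ + n - 1) := Nat.pow_le_pow_right two_pos h2
    have h4 : 2 ^ (n₀ + n) = 2 ^ (n₀ + n - 1) * 2 := by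
      rw [← pow_succ]
      congr 1
      omega
    have h5 : 2 ^ ((n₀ + n) / 4 + 4) = 2 ^ ((n₀ + n) / 4) * 16 := by rw [pow_add]; norm_num
    have h6 : 1 ≤ 2 ^ ((n₀ + n) / 4) := Nat.one_le_two_pow
    omega
  exact_mod_cast h1

lemma node_nonneg (j : ℕ) : 0 ≤ node j := by
  unfold node
  split_ifs
  · exact le_rfl
  · positivity

lemma node_le (M j : ℕ) (hj : j ∈ Finset.range (M + 1)) : node j ≤ 2 ^ M := by
  unfold node
  split_ifs
  · positivity
  · exact pow_le_pow_right₀ (by norm_num) (Nat.lt_succ_iff.1 (Finset.mem_range.1 hj))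

/-- **module O1''** -/
theorem blocks3' (hm : ∀ M k, k < M → ∑ j ∈ Finset.range (M + 1), coef M j * node j ^ k = 0)
    (hb : ∀ k, ∃ C > 0, ∀ M, ∑ j ∈ Finset.range (M + 1), |coef M j| * node j ^ k ≤ C)
    (n₀ : ℕ) (hn₀ : 6 ≤ n₀) (f : ℝ × ℝ → V) (hf : ContDiff ℝ ∞ f)
    (hs : ∀ z, f z ≠ 0 → |z.1| ≤ 2 ∧ |z.2| ≤ 2)
    (hd : ∀ z, fderiv ℝ f z (1, 0) 0 + fderiv ℝ f z (0, 1) 1 = 0) :
    Blocks3 n₀ (fun n => bl (n₀ + n) f) := by
  classical
  have hcs : HasCompactSupport f := by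
    refine HasCompactSupport.intro (K := Icc ((-2 : ℝ), (-2 : ℝ)) (2, 2)) isCompact_Icc ?_
    intro z hz
    by_contra hne
    obtain ⟨h1, h2⟩ := hs z hne
    rw [abs_le] at h1 h2
    exact hz ⟨⟨h1.1, h2.1⟩, ⟨h1.2, h2.2⟩⟩
  have hAk : ∀ k : ℕ, ∃ A : ℝ, ∀ z, ‖iteratedFDeriv ℝ k f z‖ ≤ A := fun k =>
    (hcs.iteratedFDeriv k).exists_bound_of_continuous
      ((contDiff_infty.1 hf k).continuous_iteratedFDeriv le_rfl)
  choose Ak hAk using hAk
  have hAk0 : ∀ k, 0 ≤ Ak k := fun k => (norm_nonneg _).trans (hAk k 0)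
  have hAf : ∀ z, ‖f z‖ ≤ Ak 0 := fun z => by
    have := hAk 0 z
    rwa [norm_iteratedFDeriv_zero] at this
  have hpi := Real.pi_pos
  choose Cb hCb0 hCb using hb
  have hN := lam3 n₀ hn₀
  have hS0 : ∀ n, (0 : ℝ) ≤ 2 ^ ((n₀ + n) / 4) := fun n => by positivity
  have hcl : ∀ n, cl (n₀ + n) f = cq ((n₀ + n) / 4 + 1) (n₀ + n) (coef ((n₀ + n) / 4)) node f :=
    fun n => rfl
  have hc1 : ∀ M, ∑ j ∈ Finset.range (M + 1), |coef M j| ≤ Cb 0 := by
    intro M
    have := hCb 0 M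
    simpa only [pow_zero, mul_one] using this
  have hsq : ∀ n, Sq (cl (n₀ + n) f) := fun n => by
    rw [hcl]
    exact cq_sq (hN n) (hS0 n) node_nonneg (node_le _) hs
  have hsm : ∀ n, ContDiff ℝ ∞ (cl (n₀ + n) f) := fun n => by
    rw [hcl]
    exact cq_smooth hf
  refine ⟨fun n => ?_, fun n => ?_, fun n x => ?_, fun k => ?_, ?_, fun k => ?_⟩
  · exact smooth_wrap _ (hsq n) (hsm n)
  · exact comp_per _
  · rw [divergence_eq_sum, Fin.sum_univ_three]
    change fderiv ℝ (fun x => cl (n₀ + n) f (pr x)) x _ 0 +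
      fderiv ℝ (fun x => cl (n₀ + n) f (pr x)) x _ 1 +
      fderiv ℝ (fun x => cl (n₀ + n) f (pr x)) x _ 2 = 0
    rw [fderiv_wrap _ (hsq n) (hsm n), fderiv_wrap _ (hsq n) (hsm n),
      fderiv_wrap _ (hsq n) (hsm n)]
    have e0 : PL (Pi.single 0 1 : V) = (1, 0) := by rw [PL_apply]; simp
    have e1 : PL (Pi.single 1 1 : V) = (0, 1) := by rw [PL_apply]; simp
    have e2 : PL (Pi.single 2 1 : V) = 0 := by rw [PL_apply]; simp
    rw [e0, e1, e2, map_zero, Pi.zero_apply, add_zero, hcl]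
    exact cq_div hf hd _
  · refine ⟨Cb 0 * Ak k + 1, by have := hAk0 k; have := hCb0 0; positivity, fun n x => ?_⟩
    refine (iter_wrap (cl (n₀ + n) f) (hsq n) (hsm n) k (K := Cb 0 * Ak k * 2 ^ ((n₀ + n) * k))
      (fun z => ?_) x).trans ?_
    · rw [hcl]
      refine (cq_iter hf k (hAk k) z).trans ?_
      refine mul_le_mul_of_nonneg_right ?_ (by positivity)
      exact mul_le_mul_of_nonneg_right (hc1 _) (hAk0 k)
    · refine mul_le_mul_of_nonneg_right ?_ (by positivity)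
      linarith
  · refine ⟨96 * Real.pi * (Ak 0) ^ 2 * Cb 0 ^ 2 + 1, by positivity, fun n => ?_⟩
    have h1 := l2_bound3 (hN n) (hS0 n) node_nonneg (node_le _) hf hs hAf (hc1 ((n₀ + n) / 4))
    refine le_trans ?_ (h1.trans ?_)
    · exact le_of_eq rfl
    · have hQ : 0 ≤ 96 * Real.pi * (Ak 0) ^ 2 * Cb 0 ^ 2 := by positivity
      refine mul_le_mul_of_nonneg_right ?_ (by positivity)
      nlinarith
  · refine ⟨96 * Real.pi * Ak 0 * (Cb k * 8 ^ k + Cb 0 * 2 ^ (4 * k * k)) + 1, by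
      have := hAk0 0
      have := hCb0 0
      have := hCb0 k
      positivity, fun n u B hu hup hB => ?_⟩
    have hB0 : 0 ≤ B := (norm_nonneg _).trans (hB 0 (Nat.zero_le _) 0)
    have hA0 := hAk0 0
    have hC0 := hCb0 0
    have hCk := hCb0 k
    rcases le_or_gt k ((n₀ + n) / 4) with hk | hk
    · have h0 := mom_bound3 (hN n) (hS0 n) node_nonneg (node_le _) hf hs hAf k
        (fun i hi => hm ((n₀ + n) / 4) i (by omega)) (hCb k ((n₀ + n) / 4)) u B hu hup
        (hB k le_rfl)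
      refine le_trans (le_of_eq rfl) (h0.trans ?_)
      have h1 : 96 * Real.pi * Ak 0 * (Cb k * 8 ^ k) ≤
          96 * Real.pi * Ak 0 * (Cb k * 8 ^ k + Cb 0 * 2 ^ (4 * k * k)) + 1 := by
        have h2 : 0 ≤ 96 * Real.pi * Ak 0 * (Cb 0 * (2 : ℝ) ^ (4 * k * k)) := by positivity
        nlinarith
      calc 96 * Real.pi * Ak 0 * Cb k * 8 ^ k * B *
            ((1 / 4) ^ (n₀ + n) * (1 / 2) ^ ((n₀ + n) * k))
          = (96 * Real.pi * Ak 0 * (Cb k * 8 ^ k)) * (B *
            ((1 / 4) ^ (n₀ + n) * (1 / 2) ^ ((n₀ + n) * k))) := by ring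
        _ ≤ (96 * Real.pi * Ak 0 * (Cb k * 8 ^ k + Cb 0 * 2 ^ (4 * k * k)) + 1) * (B *
            ((1 / 4) ^ (n₀ + n) * (1 / 2) ^ ((n₀ + n) * k))) :=
          mul_le_mul_of_nonneg_right h1 (by positivity)
        _ = _ := by ring
    · have hu0 : ContDiff ℝ (0 : ℕ) u := hu.of_le (by exact_mod_cast Nat.zero_le k)
      have h0 := mom_bound3 (hN n) (hS0 n) node_nonneg (node_le _) hf hs hAf 0
        (fun i hi => absurd hi (Nat.not_lt_zero i)) (hCb 0 ((n₀ + n) / 4)) u B hu0 hup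
        (hB 0 (Nat.zero_le _))
      refine le_trans (le_of_eq rfl) (h0.trans ?_)
      rw [pow_zero, mul_one, mul_zero, pow_zero, mul_one]
      have hNk : (n₀ + n) * k ≤ 4 * k * k := by
        have h3 : n₀ + n ≤ 4 * k := by omega
        exact Nat.mul_le_mul_right k h3
      have h5 : (1 : ℝ) ≤ 2 ^ (4 * k * k) * (1 / 2) ^ ((n₀ + n) * k) := by
        calc (1 : ℝ) = 2 ^ ((n₀ + n) * k) * (1 / 2) ^ ((n₀ + n) * k) := by
              rw [← mul_pow]; norm_num
          _ ≤ _ := mul_le_mul_of_nonneg_right (pow_le_pow_right₀ (by norm_num) hNk)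
              (by positivity)
      calc 96 * Real.pi * Ak 0 * Cb 0 * B * (1 / 4) ^ (n₀ + n)
          ≤ (96 * Real.pi * Ak 0 * Cb 0 * B * (1 / 4) ^ (n₀ + n)) *
            (2 ^ (4 * k * k) * (1 / 2) ^ ((n₀ + n) * k)) :=
            le_mul_of_one_le_right (by positivity) h5
        _ = (96 * Real.pi * Ak 0 * (Cb 0 * 2 ^ (4 * k * k))) * (B *
            ((1 / 4) ^ (n₀ + n) * (1 / 2) ^ ((n₀ + n) * k))) := by ring
        _ ≤ (96 * Real.pi * Ak 0 * (Cb k * 8 ^ k + Cb 0 * 2 ^ (4 * k * k)) + 1) * (B *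
            ((1 / 4) ^ (n₀ + n) * (1 / 2) ^ ((n₀ + n) * k))) := by
          refine mul_le_mul_of_nonneg_right ?_ (by positivity)
          have h2 : 0 ≤ 96 * Real.pi * Ak 0 * (Cb k * (8 : ℝ) ^ k) := by positivity
          nlinarith
        _ = _ := by ring

end Pool.Agent.Zk94.MB
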