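import Pool.Agent.Zk27.MB.Cut2
import Pool.Agent.Zk94.MB.O1

/-!
# Blocks, the number of vanishing moments grows with the scale
-/

open MeasureTheory Set
open scoped ContDiff Topology

set_option linter.all false

namespace Pool.Agent.Zk94.MB

open Pool.Agent.H708R2.EulerSign Pool.Agent.H708R2.EulerModes
open Pool.Agent.R739.ET (wr wr_add wr_mem wr_exists wr_eq wr_near near_mem)
open Pool.Agent.Zk27.MB

theorem mom_bound2 {M N : ℕ} (hN : (8 * M + 2 : ℝ) < 2 ^ N) {f : ℝ × ℝ → V}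
    (hf : ContDiff ℝ ∞ f) (hs : ∀ z, f z ≠ 0 → |z.1| ≤ 2 ∧ |z.2| ≤ 2) {A : ℝ}
    (hA : ∀ z, ‖f z‖ ≤ A) (k : ℕ) (hk : k ≤ M) (u : V → V) (B : ℝ) (hu : ContDiff ℝ k u)
    (hup : Periodic3 u) (hB : ∀ x, ‖iteratedFDeriv ℝ k u x‖ ≤ B) :
    |ip u (blk M N f)| ≤ 96 * Real.pi * A * 2 ^ M * 8 ^ k * B *
      ((1 / 4) ^ N * (1 / 2) ^ (N * k)) := by
  have hp : (0 : ℝ) < 2 ^ N := by positivity
  have hN2 : (2 : ℝ) < 2 ^ N := by
    have : (0 : ℝ) ≤ M := Nat.cast_nonneg M
    linarith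
  have hA0 : 0 ≤ A := (norm_nonneg _).trans (hA 0)
  have hB0 : 0 ≤ B := (norm_nonneg _).trans (hB 0)
  obtain ⟨h, hh⟩ : ∃ h : V, h = Pi.single 0 (8 / 2 ^ N) := ⟨_, rfl⟩
  have hhn : ‖h‖ ≤ 8 / 2 ^ N := by
    rw [hh]
    refine (pi_norm_le_iff_of_nonneg (by positivity)).2 fun i => ?_
    by_cases hi : i = 0
    · subst hi
      rw [Pi.single_eq_same, Real.norm_of_nonneg (by positivity)]
    · rw [Pi.single_eq_of_ne hi, norm_zero]
      positivity
  have huc : Continuous u := hu.continuous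
  let g : V → V := fun x => g0 N f (pr x)
  have hgc : Continuous g := (smooth_wrap _ (g0_sq hN2 hs) (g0_smooth N hf)).continuous
  have hgp : Periodic3 g := comp_per _
  have hint : ∀ c d : V, IntegrableOn (fun x => ∑ i, u (x + c) i * g (x + d) i) Dom := by
    intro c d
    refine Periodic3.integrableOn ?_ ?_
    · intro i x
      simp only
      have e1 : x + Pi.single i (2 * Real.pi) + c = (x + c) + Pi.single i (2 * Real.pi) := by abel
      have e2 : x + Pi.single i (2 * Real.pi) + d = (x + d) + Pi.single i (2 * Real.pi) := by abel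
      rw [e1, e2, hup i, hgp i]
    · refine continuous_finset_sum _ fun i _ => ?_
      exact ((continuous_apply i).comp (huc.comp (continuous_id.add continuous_const))).mul
        ((continuous_apply i).comp (hgc.comp (continuous_id.add continuous_const)))
  have hint' : ∀ (j : ℕ), IntegrableOn (fun x => ((-1 : ℝ) ^ j * (M.choose j : ℝ)) *
      ∑ i, u x i * g (x + (j : ℝ) • h) i) Dom := by
    intro j
    have h1 := (hint 0 ((j : ℝ) • h)).const_mul ((-1 : ℝ) ^ j * (M.choose j : ℝ))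
    simp only [add_zero] at h1
    exact h1
  have hint'' : ∀ (j : ℕ), IntegrableOn (fun x => ((-1 : ℝ) ^ j * (M.choose j : ℝ)) *
      ∑ i, u (x - (j : ℝ) • h) i * g x i) Dom := by
    intro j
    have h1 := (hint (-((j : ℝ) • h)) 0).const_mul ((-1 : ℝ) ^ j * (M.choose j : ℝ))
    simp only [add_zero, ← sub_eq_add_neg] at h1
    exact h1
  have key : ip u (blk M N f) = ∫ x in Dom, ∑ i,
      (∑ j ∈ Finset.range (M + 1), ((-1 : ℝ) ^ j * (M.choose j : ℝ)) •
        u (x - (j : ℝ) • h)) i * g x i := by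
    have e1 : ip u (blk M N f) = ∫ x in Dom, ∑ j ∈ Finset.range (M + 1),
        ((-1 : ℝ) ^ j * (M.choose j : ℝ)) * ∑ i, u x i * g (x + (j : ℝ) • h) i := by
      unfold ip
      congr 1
      funext x
      rw [blk_eq hN hs x, ← hh]
      simp only [Finset.sum_apply, Pi.smul_apply, smul_eq_mul, Finset.mul_sum]
      rw [Finset.sum_comm]
      refine Finset.sum_congr rfl fun j _ => Finset.sum_congr rfl fun i _ => ?_
      change _ = _ * (u x i * g0 N f (pr (x + (j : ℝ) • h)) i)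
      ring
    have e2 : (∫ x in Dom, ∑ i,
      (∑ j ∈ Finset.range (M + 1), ((-1 : ℝ) ^ j * (M.choose j : ℝ)) •
        u (x - (j : ℝ) • h)) i * g x i) = ∫ x in Dom, ∑ j ∈ Finset.range (M + 1),
        ((-1 : ℝ) ^ j * (M.choose j : ℝ)) * ∑ i, u (x - (j : ℝ) • h) i * g x i := by
      congr 1
      funext x
      simp only [Finset.sum_apply, Pi.smul_apply, smul_eq_mul, Finset.mul_sum, Finset.sum_mul]
      rw [Finset.sum_comm]
      refine Finset.sum_congr rfl fun j _ => Finset.sum_congr rfl fun i _ => ?_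
      ring
    rw [e1, e2, integral_finset_sum _ (fun j _ => hint' j),
      integral_finset_sum _ (fun j _ => hint'' j)]
    refine Finset.sum_congr rfl fun j _ => ?_
    rw [integral_const_mul, integral_const_mul]
    congr 1
    have hper : Periodic3 (fun x => ∑ i, u (x - (j : ℝ) • h) i * g x i) := by
      intro i x
      simp only
      have e1 : x + Pi.single i (2 * Real.pi) - (j : ℝ) • h =
          (x - (j : ℝ) • h) + Pi.single i (2 * Real.pi) := by abel
      rw [e1, hup i, hgp i]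
    rw [← integral_translate hper ((j : ℝ) • h)]
    simp only [add_sub_cancel_right]
  rw [key]
  have hDk := fun x => fin_diff h M k hk u B hu hB x
  have hb := int_bound (G := fun x => ∑ i,
      (∑ j ∈ Finset.range (M + 1), ((-1 : ℝ) ^ j * (M.choose j : ℝ)) •
        u (x - (j : ℝ) • h)) i * g x i) (K := 3 * ((2 ^ (M - k) * (‖h‖ ^ k * B)) * A))
      (a := 2 / 2 ^ N) (b := 2 / 2 ^ N) ?_ (by positivity) (by positivity) ?_ ?_
  · refine hb.trans ?_
    have h1 : ‖h‖ ^ k ≤ 8 ^ k * (1 / 2) ^ (N * k) := by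
      refine (pow_le_pow_left₀ (norm_nonneg _) hhn k).trans ?_
      rw [div_pow, div_eq_mul_one_div, pow_mul, one_div_pow, one_div_pow]
    have h2 : (2 : ℝ) ^ (M - k) ≤ 2 ^ M := pow_le_pow_right₀ (by norm_num) (Nat.sub_le _ _)
    have h3 : (8 * Real.pi * (2 / 2 ^ N) * (2 / 2 ^ N) : ℝ) = 32 * Real.pi * (1 / 4) ^ N := by
      have : (1 / 4 : ℝ) ^ N = (1 / 2 ^ N) * (1 / 2 ^ N) := by
        rw [← one_div_pow, ← mul_pow]
        norm_num
      rw [this]
      ring
    rw [h3]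
    calc 3 * ((2 ^ (M - k) * (‖h‖ ^ k * B)) * A) * (32 * Real.pi * (1 / 4) ^ N)
        ≤ 3 * ((2 ^ M * ((8 ^ k * (1 / 2) ^ (N * k)) * B)) * A) *
          (32 * Real.pi * (1 / 4) ^ N) := by
          have hpi := Real.pi_pos
          gcongr
      _ = _ := by ring
  · intro i x
    simp only
    have e1 : ∀ j : ℕ, x + Pi.single i (2 * Real.pi) - (j : ℝ) • h =
        (x - (j : ℝ) • h) + Pi.single i (2 * Real.pi) := fun j => by abel
    simp only [e1, hup i]
    rw [hgp i]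
  · intro x
    refine (dot_le _ _).trans ?_
    refine mul_le_mul_of_nonneg_left ?_ (by norm_num)
    exact mul_le_mul (hDk x) (hA _) (norm_nonneg _) (by positivity)
  · intro x hx
    have hgx : g x ≠ 0 := by
      intro h0
      apply hx
      refine Finset.sum_eq_zero fun i _ => ?_
      rw [h0, Pi.zero_apply, mul_zero]
    have h4 := supp_copy hs hp (c := 0) (K := 0) (by simp) (pr x) (by
      rw [add_zero]; exact hgx)
    rw [zero_add] at h4
    exact h4


/-- the `L²` norm of the sum of the copies -/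
theorem l2_bound {M N : ℕ} (hN : (8 * M + 2 : ℝ) < 2 ^ N) {f : ℝ × ℝ → V}
    (hf : ContDiff ℝ ∞ f) (hs : ∀ z, f z ≠ 0 → |z.1| ≤ 2 ∧ |z.2| ≤ 2) {A : ℝ}
    (hA : ∀ z, ‖f z‖ ≤ A) :
    ∫ x in Dom, sq3 (blk M N f x) ≤ 96 * Real.pi * A ^ 2 * 4 ^ M * (1 / 4) ^ N := by
  have hp : (0 : ℝ) < 2 ^ N := by positivity
  have hN2 : (2 : ℝ) < 2 ^ N := by
    have : (0 : ℝ) ≤ M := Nat.cast_nonneg M
    linarith
  have hA0 : 0 ≤ A := (norm_nonneg _).trans (hA 0)
  obtain ⟨h, hh⟩ : ∃ h : V, h = Pi.single 0 (8 / 2 ^ N) := ⟨_, rfl⟩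
  let g : V → V := fun x => g0 N f (pr x)
  have hgc : Continuous g := (smooth_wrap _ (g0_sq hN2 hs) (g0_smooth N hf)).continuous
  have hgp : Periodic3 g := comp_per _
  have hsp : Periodic3 (fun x => sq3 (g x)) := by
    intro i x
    simp only
    rw [hgp i]
  have hsc : ∀ {w : V → V}, Continuous w → Continuous (fun x => sq3 (w x)) := by
    intro w hw
    unfold sq3
    exact continuous_finset_sum _ fun i _ => ((continuous_apply i).comp hw).pow 2
  have hint : ∀ j : ℕ, IntegrableOn (fun x => |(-1 : ℝ) ^ j * (M.choose j : ℝ)| *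
      sq3 (g (x + (j : ℝ) • h))) Dom := by
    intro j
    refine (Periodic3.integrableOn ?_ ?_).const_mul _
    · intro i x
      simp only
      have e1 : x + Pi.single i (2 * Real.pi) + (j : ℝ) • h =
          (x + (j : ℝ) • h) + Pi.single i (2 * Real.pi) := by abel
      rw [e1, hgp i]
    · exact hsc (hgc.comp (continuous_id.add continuous_const))
  have hpt : ∀ x, sq3 (blk M N f x) ≤ 2 ^ M * ∑ j ∈ Finset.range (M + 1),
      |(-1 : ℝ) ^ j * (M.choose j : ℝ)| * sq3 (g (x + (j : ℝ) • h)) := by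
    intro x
    have e1 : ∀ i, (blk M N f x i) ^ 2 ≤ 2 ^ M * ∑ j ∈ Finset.range (M + 1),
        |(-1 : ℝ) ^ j * (M.choose j : ℝ)| * (g (x + (j : ℝ) • h) i) ^ 2 := by
      intro i
      have e2 : blk M N f x i = ∑ j ∈ Finset.range (M + 1),
          ((-1 : ℝ) ^ j * (M.choose j : ℝ)) * g (x + (j : ℝ) • h) i := by
        rw [blk_eq hN hs x, ← hh]
        simp only [Finset.sum_apply, Pi.smul_apply, smul_eq_mul]
        rfl
      rw [e2, ← sum_coeff M]
      refine Finset.sum_sq_le_sum_mul_sum_of_sq_eq_mul _ (fun j _ => abs_nonneg _)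
        (fun j _ => by positivity) fun j _ => ?_
      rw [mul_pow]
      rw [← mul_assoc, ← sq_abs ((-1 : ℝ) ^ j * (M.choose j : ℝ)), sq]
    unfold sq3
    refine (Finset.sum_le_sum fun i _ => e1 i).trans_eq ?_
    rw [← Finset.mul_sum, Finset.sum_comm]
    congr 1
    refine Finset.sum_congr rfl fun j _ => ?_
    rw [Finset.mul_sum]
  have hI : ∫ x in Dom, sq3 (g x) ≤ 96 * Real.pi * A ^ 2 * (1 / 4) ^ N := by
    have hb := int_bound (G := fun x => sq3 (g x)) (K := 3 * A ^ 2)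
      (a := 2 / 2 ^ N) (b := 2 / 2 ^ N) hsp (by positivity) (by positivity) ?_ ?_
    · refine (le_abs_self _).trans (hb.trans_eq ?_)
      have : (1 / 4 : ℝ) ^ N = (1 / 2 ^ N) * (1 / 2 ^ N) := by
        rw [← one_div_pow, ← mul_pow]
        norm_num
      rw [this]
      ring
    · intro x
      rw [abs_of_nonneg (sq3_nonneg _)]
      refine (sq3_le _).trans ?_
      refine mul_le_mul_of_nonneg_left ?_ (by norm_num)
      exact pow_le_pow_left₀ (norm_nonneg _) (hA _) 2
    · intro x hx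
      have h4 := supp_copy hs hp (c := 0) (K := 0) (by simp) (pr x) (by
        rw [add_zero]
        intro h0
        apply hx
        have : g x = 0 := h0
        rw [this]
        simp [sq3])
      rw [zero_add] at h4
      exact h4
  have hblkI : IntegrableOn (fun x => sq3 (blk M N f x)) Dom := by
    refine Periodic3.integrableOn ?_ ?_
    · intro i x
      simp only
      unfold blk
      have := comp_per (cp M N f) i x
      simp only at this
      rw [this]
    · exact hsc (smooth_wrap _ (cp_sq hN hs) (cp_smooth M _ hf)).continuous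
  calc ∫ x in Dom, sq3 (blk M N f x)
      ≤ ∫ x in Dom, 2 ^ M * ∑ j ∈ Finset.range (M + 1),
        |(-1 : ℝ) ^ j * (M.choose j : ℝ)| * sq3 (g (x + (j : ℝ) • h)) := by
        refine setIntegral_mono hblkI ?_ hpt
        exact (integrable_finset_sum _ fun j _ => hint j).const_mul _
    _ = 2 ^ M * ∑ j ∈ Finset.range (M + 1),
        |(-1 : ℝ) ^ j * (M.choose j : ℝ)| * ∫ x in Dom, sq3 (g x) := by
        rw [integral_const_mul, integral_finset_sum _ fun j _ => hint j]
        congr 1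
        refine Finset.sum_congr rfl fun j _ => ?_
        rw [integral_const_mul]
        congr 1
        exact integral_translate hsp ((j : ℝ) • h)
    _ = 2 ^ M * 2 ^ M * ∫ x in Dom, sq3 (g x) := by
        rw [← Finset.sum_mul, sum_coeff, mul_assoc]
    _ ≤ 2 ^ M * 2 ^ M * (96 * Real.pi * A ^ 2 * (1 / 4) ^ N) :=
        mul_le_mul_of_nonneg_left hI (by positivity)
    _ = _ := by
        have : (4 : ℝ) ^ M = 2 ^ M * 2 ^ M := by rw [← mul_pow]; norm_num
        rw [this]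
        ring

lemma lam2 (D n₀ : ℕ) (hn₀ : 6 ≤ n₀) (n : ℕ) :
    (8 * ((n₀ + n) / D : ℕ) + 2 : ℝ) < 2 ^ (n₀ + n) := by
  have h0 : ∀ N : ℕ, 6 ≤ N → 8 * N + 2 < 2 ^ N := by
    intro N hN
    induction N, hN using Nat.le_induction with
    | base => norm_num
    | succ m hm ih => rw [pow_succ]; omega
  have h1 : 8 * ((n₀ + n) / D) + 2 < 2 ^ (n₀ + n) :=
    lt_of_le_of_lt (by have := Nat.div_le_self (n₀ + n) D; omega) (h0 (n₀ + n) (by omega))
  exact_mod_cast h1

/-- **module O1'** -/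
theorem blocks2 (D n₀ : ℕ) (hD : 1 ≤ D) (hn₀ : 6 ≤ n₀) (f : ℝ × ℝ → V) (hf : ContDiff ℝ ∞ f)
    (hs : ∀ z, f z ≠ 0 → |z.1| ≤ 2 ∧ |z.2| ≤ 2)
    (hd : ∀ z, fderiv ℝ f z (1, 0) 0 + fderiv ℝ f z (0, 1) 1 = 0) :
    Blocks2 D n₀ (fun n => blk ((n₀ + n) / D) (n₀ + n) f) := by
  classical
  have hcs : HasCompactSupport f := by
    refine HasCompactSupport.intro (K := Icc ((-2 : ℝ), (-2 : ℝ)) (2, 2)) isCompact_Icc ?_
    intro z hz
    by_contra hne
    obtain ⟨h1, h2⟩ := hs z hne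
    rw [abs_le] at h1 h2
    exact hz ⟨⟨h1.1, h2.1⟩, ⟨h1.2, h2.2⟩⟩
  have hAk : ∀ k : ℕ, ∃ A : ℝ, ∀ z, ‖iteratedFDeriv ℝ k f z‖ ≤ A := fun k =>
    (hcs.iteratedFDeriv k).exists_bound_of_continuous
      ((contDiff_infty.1 hf k).continuous_iteratedFDeriv le_rfl)
  choose Ak hAk using hAk
  have hAk0 : ∀ k, 0 ≤ Ak k := fun k => (norm_nonneg _).trans (hAk k 0)
  have hAf : ∀ z, ‖f z‖ ≤ Ak 0 := fun z => by
    have := hAk 0 z
    rwa [norm_iteratedFDeriv_zero] at this
  have hpi := Real.pi_pos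
  have hN := lam2 D n₀ hn₀
  refine ⟨fun n => ?_, fun n => ?_, fun n x => ?_, fun k => ?_, ?_, fun k => ?_⟩
  · exact smooth_wrap _ (cp_sq (hN n) hs) (cp_smooth _ _ hf)
  · exact comp_per _
  · rw [divergence_eq_sum, Fin.sum_univ_three]
    change fderiv ℝ (fun x => cp ((n₀ + n) / D) (n₀ + n) f (pr x)) x _ 0 +
      fderiv ℝ (fun x => cp ((n₀ + n) / D) (n₀ + n) f (pr x)) x _ 1 +
      fderiv ℝ (fun x => cp ((n₀ + n) / D) (n₀ + n) f (pr x)) x _ 2 = 0
    rw [fderiv_wrap _ (cp_sq (hN n) hs) (cp_smooth _ _ hf),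
      fderiv_wrap _ (cp_sq (hN n) hs) (cp_smooth _ _ hf),
      fderiv_wrap _ (cp_sq (hN n) hs) (cp_smooth _ _ hf)]
    have e0 : PL (Pi.single 0 1 : V) = (1, 0) := by rw [PL_apply]; simp
    have e1 : PL (Pi.single 1 1 : V) = (0, 1) := by rw [PL_apply]; simp
    have e2 : PL (Pi.single 2 1 : V) = 0 := by rw [PL_apply]; simp
    rw [e0, e1, e2, map_zero, Pi.zero_apply, add_zero]
    exact cp_div hf hd _ (n₀ + n) _
  · refine ⟨Ak k + 1, by have := hAk0 k; linarith, fun n x => ?_⟩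
    refine (iter_wrap (cp ((n₀ + n) / D) (n₀ + n) f) (cp_sq (hN n) hs) (cp_smooth _ _ hf) k
      (cp_iter _ (n₀ + n) hf k (hAk k)) x).trans ?_
    refine mul_le_mul_of_nonneg_right ?_ (by positivity)
    rw [mul_comm]
    exact mul_le_mul_of_nonneg_right (by linarith) (by positivity)
  · refine ⟨96 * Real.pi * (Ak 0) ^ 2 + 1, by positivity, fun n => ?_⟩
    refine (l2_bound (hN n) hf hs hAf).trans ?_
    have hQ : 0 ≤ 96 * Real.pi * (Ak 0) ^ 2 := by positivity
    refine mul_le_mul_of_nonneg_right ?_ (by positivity)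
    refine mul_le_mul_of_nonneg_right ?_ (by positivity)
    nlinarith
  · refine ⟨96 * Real.pi * Ak 0 * (8 ^ k + 2 ^ (D * k * k)) + 1, by
      have := hAk0 0
      positivity, fun n u B hu hup hB => ?_⟩
    have hB0 : 0 ≤ B := (norm_nonneg _).trans (hB 0 (Nat.zero_le _) 0)
    have hA0 := hAk0 0
    rcases le_or_gt k ((n₀ + n) / D) with hk | hk
    · refine (mom_bound2 (hN n) hf hs hAf k hk u B hu hup (hB k le_rfl)).trans ?_
      have h1 : 96 * Real.pi * Ak 0 * 8 ^ k ≤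
          96 * Real.pi * Ak 0 * (8 ^ k + 2 ^ (D * k * k)) + 1 := by
        have h2 : 0 ≤ 96 * Real.pi * Ak 0 * (2 : ℝ) ^ (D * k * k) := by positivity
        nlinarith
      calc 96 * Real.pi * Ak 0 * 2 ^ ((n₀ + n) / D) * 8 ^ k * B *
            ((1 / 4) ^ (n₀ + n) * (1 / 2) ^ ((n₀ + n) * k))
          = (96 * Real.pi * Ak 0 * 8 ^ k) * (B * 2 ^ ((n₀ + n) / D) *
            ((1 / 4) ^ (n₀ + n) * (1 / 2) ^ ((n₀ + n) * k))) := by ring
        _ ≤ (96 * Real.pi * Ak 0 * (8 ^ k + 2 ^ (D * k * k)) + 1) * (B * 2 ^ ((n₀ + n) / D) *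
            ((1 / 4) ^ (n₀ + n) * (1 / 2) ^ ((n₀ + n) * k))) :=
          mul_le_mul_of_nonneg_right h1 (by positivity)
        _ = _ := by ring
    · have hu0 : ContDiff ℝ (0 : ℕ) u := hu.of_le (by exact_mod_cast Nat.zero_le k)
      refine (mom_bound2 (hN n) hf hs hAf 0 (Nat.zero_le _) u B hu0 hup
        (hB 0 (Nat.zero_le _))).trans ?_
      rw [pow_zero, mul_one, mul_zero, pow_zero, mul_one]
      have hNk : (n₀ + n) * k ≤ D * k * k := by
        have h3 : n₀ + n ≤ D * k := by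
          have h4 := (Nat.div_lt_iff_lt_mul (by omega : 0 < D)).1 hk
          rw [mul_comm] at h4
          exact h4.le
        exact Nat.mul_le_mul_right k h3
      have h5 : (1 : ℝ) ≤ 2 ^ (D * k * k) * (1 / 2) ^ ((n₀ + n) * k) := by
        calc (1 : ℝ) = 2 ^ ((n₀ + n) * k) * (1 / 2) ^ ((n₀ + n) * k) := by
              rw [← mul_pow]; norm_num
          _ ≤ _ := mul_le_mul_of_nonneg_right (pow_le_pow_right₀ (by norm_num) hNk)
              (by positivity)
      calc 96 * Real.pi * Ak 0 * 2 ^ ((n₀ + n) / D) * B * (1 / 4) ^ (n₀ + n)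
          ≤ (96 * Real.pi * Ak 0 * 2 ^ ((n₀ + n) / D) * B * (1 / 4) ^ (n₀ + n)) *
            (2 ^ (D * k * k) * (1 / 2) ^ ((n₀ + n) * k)) :=
            le_mul_of_one_le_right (by positivity) h5
        _ = (96 * Real.pi * Ak 0 * 2 ^ (D * k * k)) * (B * 2 ^ ((n₀ + n) / D) *
            ((1 / 4) ^ (n₀ + n) * (1 / 2) ^ ((n₀ + n) * k))) := by ring
        _ ≤ (96 * Real.pi * Ak 0 * (8 ^ k + 2 ^ (D * k * k)) + 1) * (B * 2 ^ ((n₀ + n) / D) *
            ((1 / 4) ^ (n₀ + n) * (1 / 2) ^ ((n₀ + n) * k))) := by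
          refine mul_le_mul_of_nonneg_right ?_ (by positivity)
          have h2 : 0 ≤ 96 * Real.pi * Ak 0 * (8 : ℝ) ^ k := by positivity
          nlinarith
        _ = _ := by ring

end Pool.Agent.Zk94.MB
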